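import Mathlib

/-!
MP_8c24b6_lc, lower bound near factor 2: sums of antiperiodic sequences, and sums over covered sets.
-/

namespace MP8D

open Finset

/-- The sum of an antiperiodic sequence with values in `[-1,1]` over any interval is at most the
antiperiod. -/
theorem antiper_bound (f : ℕ → ℤ) (M : ℕ) (hf : ∀ y, f (y + M) = - f y) (h1 : ∀ y, |f y| ≤ 1)
    (p q : ℕ) (hpq : p ≤ q) : |∑ y ∈ Ico p q, f y| ≤ M := by
  obtain ⟨r, rfl⟩ := Nat.exists_eq_add_of_le hpq
  have hS : ∀ r, ∑ y ∈ Ico p (p + r), f y = ∑ i ∈ range r, f (p + i) := by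
    intro r
    rw [Finset.sum_Ico_eq_sum_range]
    simp
  rw [hS]
  have hadd : ∀ r, ∑ i ∈ range (M + r), f (p + i) =
      ∑ i ∈ range M, f (p + i) - ∑ i ∈ range r, f (p + i) := by
    intro r
    rw [Finset.sum_range_add, sub_eq_add_neg, ← Finset.sum_neg_distrib]
    congr 1
    apply Finset.sum_congr rfl
    intro i _
    rw [← hf]
    congr 1
    ring
  have hle : ∀ r, |∑ i ∈ range r, f (p + i)| ≤ r := by
    intro r
    calc |∑ i ∈ range r, f (p + i)| ≤ ∑ i ∈ range r, |f (p + i)| := Finset.abs_sum_le_sum_abs _ _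
      _ ≤ ∑ i ∈ range r, (1 : ℤ) := Finset.sum_le_sum (fun i _ => h1 _)
      _ = r := by simp
  induction r using Nat.strong_induction_on with
  | _ r ih =>
    by_cases hr : r ≤ M
    · exact (hle r).trans (by exact_mod_cast hr)
    · push Not at hr
      by_cases hM : M = 0
      · subst hM
        have hz : ∀ y, f y = 0 := by
          intro y
          have := hf y
          simp only [add_zero] at this
          omega
        simp [hz]
      · by_cases hr2 : r ≤ 2 * M
        · obtain ⟨t, rfl⟩ := Nat.exists_eq_add_of_le hr.le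
          have ht : t ≤ M := by omega
          rw [hadd]
          obtain ⟨w, hw⟩ := Nat.exists_eq_add_of_le ht
          have h2 : ∑ i ∈ range M, f (p + i) - ∑ i ∈ range t, f (p + i) =
              ∑ i ∈ range w, f (p + (t + i)) := by
            rw [hw, Finset.sum_range_add]
            ring
          rw [h2]
          calc |∑ i ∈ range w, f (p + (t + i))| ≤ ∑ i ∈ range w, |f (p + (t + i))| :=
                Finset.abs_sum_le_sum_abs _ _
            _ ≤ ∑ i ∈ range w, (1 : ℤ) := Finset.sum_le_sum (fun i _ => h1 _)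
            _ = w := by simp
            _ ≤ M := by exact_mod_cast (by omega : w ≤ M)
        · push Not at hr2
          obtain ⟨t, rfl⟩ := Nat.exists_eq_add_of_le hr2.le
          have e : 2 * M + t = M + (M + t) := by ring
          rw [e, hadd, hadd]
          have := ih t (by omega) (by omega)
          simpa using this

/-- The sum over a finite set `X` of a sequence all of whose interval sums are at most `δ` is at
most `δ` times the number of left ends of `X`. -/
theorem sum_cov (f : ℕ → ℤ) (δ : ℕ) (hδ : ∀ p q, p ≤ q → |∑ y ∈ Ico p q, f y| ≤ δ)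
    (X : Finset ℕ) :
    ∑ y ∈ X, f y ≤ ((X.filter (fun x => ∀ y ∈ X, y + 1 ≠ x)).card : ℤ) * δ := by
  classical
  set F : ℕ → ℤ := fun y => ∑ i ∈ range y, f i with hF
  have hFd : ∀ p q, |F q - F p| ≤ δ := by
    intro p q
    rcases le_total p q with h | h
    · have := hδ p q h
      rwa [Finset.sum_Ico_eq_sub f h] at this
    · have := hδ q p h
      rw [Finset.sum_Ico_eq_sub f h] at this
      rw [abs_sub_comm]
      exact this
  set X1 : Finset ℕ := X.image (fun y => y + 1) with hX1
  have hcard : X1.card = X.card := Finset.card_image_of_injective _ (fun a b h => by simpa using h)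
  have hsum : ∑ y ∈ X, f y = ∑ y ∈ X1, F y - ∑ y ∈ X, F y := by
    rw [hX1, Finset.sum_image (fun a _ b _ h => by simpa using h), ← Finset.sum_sub_distrib]
    apply Finset.sum_congr rfl
    intro y _
    simp [hF, Finset.sum_range_succ]
  have hL : X.filter (fun x => ∀ y ∈ X, y + 1 ≠ x) = X \ X1 := by
    ext x
    simp [hX1]
  rw [hL]
  have hc2 : (X1 \ X).card = (X \ X1).card := Finset.card_sdiff_comm hcard
  have h1 : ∑ y ∈ X1, F y - ∑ y ∈ X, F y = ∑ y ∈ X1 \ X, F y - ∑ y ∈ X \ X1, F y := by
    have e1 := Finset.sum_inter_add_sum_sdiff X1 X F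
    have e2 := Finset.sum_inter_add_sum_sdiff X X1 F
    rw [Finset.inter_comm] at e2
    linarith
  rw [hsum, h1]
  by_cases hne : (X ∪ X1).Nonempty
  · obtain ⟨y0, -, hy0⟩ := Finset.exists_min_image (X ∪ X1) F hne
    have hup : ∑ y ∈ X1 \ X, F y ≤ ((X1 \ X).card : ℤ) * (F y0 + δ) := by
      have : ∑ y ∈ X1 \ X, F y ≤ ∑ _y ∈ X1 \ X, (F y0 + δ) := by
        apply Finset.sum_le_sum
        intro y _
        have := hFd y0 y
        have := le_abs_self (F y - F y0)
        linarith
      simpa using this
    have hlo : ((X \ X1).card : ℤ) * F y0 ≤ ∑ y ∈ X \ X1, F y := by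
      have : ∑ _y ∈ X \ X1, F y0 ≤ ∑ y ∈ X \ X1, F y := by
        apply Finset.sum_le_sum
        intro y hy
        exact hy0 y (by
          rw [Finset.mem_union]
          exact Or.inl (Finset.mem_sdiff.mp hy).1)
      simpa using this
    rw [hc2] at hup
    nlinarith
  · rw [Finset.not_nonempty_iff_eq_empty, Finset.union_eq_empty] at hne
    simp [hne.1, hne.2]

end MP8D
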