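import Pool.Agent.Lib.MP_8c24b6_lc.RnaDefs

/-!
MP_8c24b6_lc: streaming algorithms with several passes.
-/

namespace MP8D

open MP8C

/-- A deterministic streaming algorithm with several passes and `s` bits of memory, i.e. `2 ^ s`
memory states.  The new state may depend in an arbitrary way on the number of the pass, on the
position in the string, on the old state and on the letter that is read. -/
structure PassAlg (s : ℕ) where
  start : Fin (2 ^ s)
  step : ℕ → ℕ → Fin (2 ^ s) → Base → Fin (2 ^ s)
  out : Fin (2 ^ s) → ℝ

/-- the state after reading the letters of `x` in pass `j`, the first of them at position `i` -/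
def PassAlg.scan {s : ℕ} (alg : PassAlg s) (j : ℕ) : ℕ → Fin (2 ^ s) → List Base → Fin (2 ^ s)
  | _, q, [] => q
  | i, q, b :: x => PassAlg.scan alg j (i + 1) (alg.step j i q b) x

/-- the state after the first `j` passes over `x` -/
def PassAlg.state {s : ℕ} (alg : PassAlg s) (x : List Base) : ℕ → Fin (2 ^ s)
  | 0 => alg.start
  | j + 1 => alg.scan j 0 (PassAlg.state alg x j) x

/-- the number that the algorithm outputs after `p` passes over `x` -/
def PassAlg.run {s : ℕ} (alg : PassAlg s) (p : ℕ) (x : List Base) : ℝ := alg.out (alg.state x p)

end MP8D
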