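import Pool.Agent.Lib.MP_8c24b6_lc.RnaDefs
import Pool.Agent.Lib.MP_8c24b6_lc.Det.A

/-!
MP_8c24b6_lc, lower bound near factor 2: internal pairs of a word over `{A, U, C}` enclose letters `C`.
-/

namespace MP8D

open Finset MP8C

/-- a set of disjoint pairs `A`-`U` of positions of the word `c` -/
structure Internal (c : ℕ → Base) (I : Finset (ℕ × ℕ)) : Prop where
  lt : ∀ p ∈ I, p.1 < p.2
  au : ∀ p ∈ I, (c p.1 = Base.A ∧ c p.2 = Base.U) ∨ (c p.1 = Base.U ∧ c p.2 = Base.A)
  inj : ∀ p ∈ I, ∀ q ∈ I, p ≠ q → p.1 ≠ q.1 ∧ p.1 ≠ q.2 ∧ p.2 ≠ q.1 ∧ p.2 ≠ q.2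

theorem Internal.mono {c : ℕ → Base} {I J : Finset (ℕ × ℕ)} (h : Internal c I) (hJ : J ⊆ I) :
    Internal c J :=
  ⟨fun p hp => h.lt p (hJ hp), fun p hp => h.au p (hJ hp),
    fun p hp q hq => h.inj p (hJ hp) q (hJ hq)⟩

/-- the covered positions -/
def cov (I : Finset (ℕ × ℕ)) : Finset ℕ := I.biUnion (fun p => Icc p.1 p.2)

/-- number of positions of `X` with the letter `b` -/
def cnt (c : ℕ → Base) (b : Base) (X : Finset ℕ) : ℕ := (X.filter (fun x => c x = b)).card

/-- number of positions of `X` with a letter different from `C` -/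
def nC (c : ℕ → Base) (X : Finset ℕ) : ℕ := (X.filter (fun x => c x ≠ Base.C)).card

theorem two_card_le {c : ℕ → Base} {I : Finset (ℕ × ℕ)} (h : Internal c I) {X : Finset ℕ}
    (hX : ∀ p ∈ I, p.1 ∈ X ∧ p.2 ∈ X) : 2 * I.card ≤ nC c X := by
  classical
  have h1 : (I.image Prod.fst).card = I.card := by
    apply Finset.card_image_of_injOn
    intro p hp q hq hpq
    by_contra hne
    exact (h.inj p hp q hq hne).1 hpq
  have h2 : (I.image Prod.snd).card = I.card := by
    apply Finset.card_image_of_injOn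
    intro p hp q hq hpq
    by_contra hne
    exact (h.inj p hp q hq hne).2.2.2 hpq
  have hd : Disjoint (I.image Prod.fst) (I.image Prod.snd) := by
    rw [Finset.disjoint_left]
    intro x hx hx'
    obtain ⟨p, hp, rfl⟩ := Finset.mem_image.mp hx
    obtain ⟨q, hq, hqp⟩ := Finset.mem_image.mp hx'
    by_cases hne : p = q
    · subst hne
      have := h.lt p hp
      omega
    · exact (h.inj p hp q hq hne).2.1 hqp.symm
  have hsub : I.image Prod.fst ∪ I.image Prod.snd ⊆ X.filter (fun x => c x ≠ Base.C) := by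
    intro x hx
    rw [Finset.mem_union] at hx
    rw [Finset.mem_filter]
    rcases hx with hx | hx
    · obtain ⟨p, hp, rfl⟩ := Finset.mem_image.mp hx
      refine ⟨(hX p hp).1, ?_⟩
      rcases h.au p hp with ⟨e, -⟩ | ⟨e, -⟩ <;> simp [e]
    · obtain ⟨p, hp, rfl⟩ := Finset.mem_image.mp hx
      refine ⟨(hX p hp).2, ?_⟩
      rcases h.au p hp with ⟨-, e⟩ | ⟨-, e⟩ <;> simp [e]
  have := Finset.card_le_card hsub
  rw [Finset.card_union_of_disjoint hd, h1, h2] at this
  unfold nC
  omega

theorem card_le_letter {c : ℕ → Base} {I : Finset (ℕ × ℕ)} (h : Internal c I) {X S : Finset ℕ}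
    (hX : ∀ p ∈ I, p.1 ∈ X ∧ p.2 ∈ X) (b : Base) (hb : b = Base.A ∨ b = Base.U) (hS : S ⊆ X)
    (hSb : ∀ x ∈ S, c x = b) (hd : ∀ p ∈ I, ∀ x ∈ S, p.1 ≠ x ∧ p.2 ≠ x) :
    S.card + I.card ≤ cnt c b X := by
  classical
  set g : ℕ × ℕ → ℕ := fun p => if c p.1 = b then p.1 else p.2 with hg
  have hgb : ∀ p ∈ I, c (g p) = b := by
    intro p hp
    simp only [hg]
    split_ifs with h1
    · exact h1
    · rcases h.au p hp with ⟨e1, e2⟩ | ⟨e1, e2⟩ <;> rcases hb with rfl | rfl <;> simp_all
  have hgor : ∀ p, g p = p.1 ∨ g p = p.2 := by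
    intro p
    simp only [hg]
    split_ifs
    · exact Or.inl rfl
    · exact Or.inr rfl
  have h1 : (I.image g).card = I.card := by
    apply Finset.card_image_of_injOn
    intro p hp q hq hpq
    by_contra hne
    have := h.inj p hp q hq hne
    rcases hgor p with e | e <;> rcases hgor q with e' | e' <;> rw [e, e'] at hpq
    · exact this.1 hpq
    · exact this.2.1 hpq
    · exact this.2.2.1 hpq
    · exact this.2.2.2 hpq
  have hdis : Disjoint S (I.image g) := by
    rw [Finset.disjoint_left]
    intro x hx hx'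
    obtain ⟨p, hp, hpx⟩ := Finset.mem_image.mp hx'
    rcases hgor p with e | e <;> rw [e] at hpx
    · exact (hd p hp x hx).1 hpx
    · exact (hd p hp x hx).2 hpx
  have hsub : S ∪ I.image g ⊆ X.filter (fun x => c x = b) := by
    intro x hx
    rw [Finset.mem_union] at hx
    rw [Finset.mem_filter]
    rcases hx with hx | hx
    · exact ⟨hS hx, hSb x hx⟩
    · obtain ⟨p, hp, rfl⟩ := Finset.mem_image.mp hx
      refine ⟨?_, hgb p hp⟩
      rcases hgor p with e | e <;> rw [e]
      · exact (hX p hp).1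
      · exact (hX p hp).2
  have := Finset.card_le_card hsub
  rw [Finset.card_union_of_disjoint hdis, h1] at this
  exact this

/-- KEY LEMMA.  If all interval sums of `±1` (`+1` for `A, U`, `-1` for `C`) are at most `δ`, and
the letters `A` and `U` lie on edges of different parity, then the internal pairs enclose almost
two letters `C` each. -/
theorem key {c : ℕ → Base} {I : Finset (ℕ × ℕ)} (h : Internal c I) {δ : ℕ}
    (hδ : ∀ p q, p ≤ q → |∑ y ∈ Ico p q, (if c y = Base.C then (-1 : ℤ) else 1)| ≤ δ)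
    {e : ℕ → ℕ} (he : Monotone e) (hA : ∀ x, c x = Base.A → e x % 2 = 0)
    (hU : ∀ x, c x = Base.U → e x % 2 = 1) {X S : Finset ℕ} (hX : cov I ⊆ X) (hS : S ⊆ X)
    (hSC : ∀ x ∈ S, c x = Base.C) (hd : Disjoint S (cov I)) :
    (S.card : ℤ) + 2 * I.card ≤ cnt c Base.C X + (X.image e).card * δ := by
  classical
  have h1 : S.card + cnt c Base.C (cov I) ≤ cnt c Base.C X := by
    unfold cnt
    rw [← Finset.card_union_of_disjoint]
    · apply Finset.card_le_card
      intro x hx
      rw [Finset.mem_union, Finset.mem_filter] at hx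
      rw [Finset.mem_filter]
      rcases hx with hx | hx
      · exact ⟨hS hx, hSC x hx⟩
      · exact ⟨hX hx.1, hx.2⟩
    · exact Finset.disjoint_of_subset_right (Finset.filter_subset _ _) hd
  have h2 : 2 * I.card ≤ nC c (cov I) := by
    apply two_card_le h
    intro p hp
    have := h.lt p hp
    constructor
    · exact Finset.mem_biUnion.mpr ⟨p, hp, Finset.mem_Icc.mpr ⟨le_rfl, this.le⟩⟩
    · exact Finset.mem_biUnion.mpr ⟨p, hp, Finset.mem_Icc.mpr ⟨this.le, le_rfl⟩⟩
  have h3 := sum_cov (fun y => if c y = Base.C then (-1 : ℤ) else 1) δ hδ (cov I)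
  have h4 : ∑ y ∈ cov I, (if c y = Base.C then (-1 : ℤ) else 1) =
      nC c (cov I) - cnt c Base.C (cov I) := by
    unfold nC cnt
    rw [Finset.sum_ite]
    simp
    ring
  have h5 : ((cov I).filter (fun x => ∀ y ∈ cov I, y + 1 ≠ x)).card ≤ (X.image e).card := by
    apply Finset.card_le_card_of_injOn e
    · intro x hx
      exact Finset.mem_image_of_mem e (hX (Finset.mem_filter.mp hx).1)
    · have key : ∀ x x', x ∈ cov I → x' ∈ cov I → (∀ y ∈ cov I, y + 1 ≠ x) →
          (∀ y ∈ cov I, y + 1 ≠ x') → e x = e x' → ¬ x < x' := by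
        intro x x' hx hx' hl hl' hee hlt
        obtain ⟨p, hp, hpx⟩ := Finset.mem_biUnion.mp hx
        rw [Finset.mem_Icc] at hpx
        have hxp : p.1 = x := by
          by_contra hne
          have hlt' : p.1 < x := by omega
          apply hl (x - 1)
          · exact Finset.mem_biUnion.mpr ⟨p, hp, Finset.mem_Icc.mpr ⟨by omega, by omega⟩⟩
          · omega
        have hb : e p.1 ≠ e p.2 := by
          rcases h.au p hp with ⟨e1, e2⟩ | ⟨e1, e2⟩
          · have := hA _ e1
            have := hU _ e2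
            omega
          · have := hU _ e1
            have := hA _ e2
            omega
        have hb2 : x' < p.2 := by
          by_contra hcon
          push Not at hcon
          have h6 := he (h.lt p hp).le
          have h7 := he hcon
          rw [hxp] at hb h6
          omega
        apply hl' (x' - 1)
        · exact Finset.mem_biUnion.mpr ⟨p, hp, Finset.mem_Icc.mpr ⟨by omega, by omega⟩⟩
        · omega
      intro x hx x' hx' hee
      have hx := Finset.mem_filter.mp hx
      have hx' := Finset.mem_filter.mp hx'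
      rcases lt_trichotomy x x' with h6 | h6 | h6
      · exact absurd h6 (key x x' hx.1 hx'.1 hx.2 hx'.2 hee)
      · exact h6
      · exact absurd h6 (key x' x hx'.1 hx.1 hx'.2 hx.2 hee.symm)
  rw [h4] at h3
  have h6 : (((cov I).filter (fun x => ∀ y ∈ cov I, y + 1 ≠ x)).card : ℤ) * δ ≤
      (X.image e).card * δ := by
    apply mul_le_mul_of_nonneg_right _ (by positivity)
    exact_mod_cast h5
  have h1' : (S.card : ℤ) + cnt c Base.C (cov I) ≤ cnt c Base.C X := by exact_mod_cast h1
  have h2' : (2 : ℤ) * I.card ≤ nC c (cov I) := by exact_mod_cast h2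
  linarith

end MP8D
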