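import Pool.Agent.Lib.MP_8c24b6_lc.Det.B

/-!
MP_8c24b6_lc, lower bound near factor 2: splitting the internal pairs along hulls of classes of
uncovered positions.
-/

namespace MP8D

open Finset MP8C

/-- the hull of the class `ρ` -/
def hull (S : Finset ℕ) (κ : ℕ → ℕ) (X : Finset ℕ) (ρ : ℕ) : Finset ℕ := by
  classical
  exact X.filter (fun n => ∃ x ∈ S, ∃ x' ∈ S, κ x = ρ ∧ κ x' = ρ ∧ x ≤ n ∧ n ≤ x')

theorem mem_hull {S : Finset ℕ} {κ : ℕ → ℕ} {X : Finset ℕ} {ρ n : ℕ} :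
    n ∈ hull S κ X ρ ↔ n ∈ X ∧ ∃ x ∈ S, ∃ x' ∈ S, κ x = ρ ∧ κ x' = ρ ∧ x ≤ n ∧ n ≤ x' := by
  simp [hull]

theorem hull_subset (S : Finset ℕ) (κ : ℕ → ℕ) (X : Finset ℕ) (ρ : ℕ) : hull S κ X ρ ⊆ X := by
  intro n hn
  exact (mem_hull.mp hn).1

/-- the pairs with both ends in `H` -/
def inside (I : Finset (ℕ × ℕ)) (H : Finset ℕ) : Finset (ℕ × ℕ) :=
  I.filter (fun p => p.1 ∈ H ∧ p.2 ∈ H)

theorem hull_disjoint {S : Finset ℕ} {κ : ℕ → ℕ} (hκ : ∀ x ∈ S, ∀ y ∈ S, x ≤ y → κ x ≤ κ y)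
    (X : Finset ℕ) {ρ σ : ℕ} (hne : ρ ≠ σ) : Disjoint (hull S κ X ρ) (hull S κ X σ) := by
  rw [Finset.disjoint_left]
  intro n h1 h2
  obtain ⟨-, x, hx, x', hx', e1, e2, l1, l2⟩ := mem_hull.mp h1
  obtain ⟨-, y, hy, y', hy', f1, f2, m1, m2⟩ := mem_hull.mp h2
  have a1 := hκ x hx y' hy' (l1.trans m2)
  have a2 := hκ y hy x' hx' (m1.trans l2)
  omega

/-- a pair that covers no point of `S` and has one end in a hull is inside this hull -/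
theorem hull_ends {S : Finset ℕ} {κ : ℕ → ℕ} {X : Finset ℕ} {ρ : ℕ} {p : ℕ × ℕ}
    (hX : p.1 ∈ X ∧ p.2 ∈ X) (hp : p.1 < p.2)
    (hc : ∀ x ∈ S, ¬ (p.1 ≤ x ∧ x ≤ p.2)) :
    (p.1 ∈ hull S κ X ρ ↔ p.2 ∈ hull S κ X ρ) := by
  constructor
  · intro h
    obtain ⟨-, x, hx, x', hx', e1, e2, l1, l2⟩ := mem_hull.mp h
    refine mem_hull.mpr ⟨hX.2, x, hx, x', hx', e1, e2, by omega, ?_⟩
    by_contra hcon
    exact hc x' hx' ⟨l2, by omega⟩
  · intro h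
    obtain ⟨-, x, hx, x', hx', e1, e2, l1, l2⟩ := mem_hull.mp h
    refine mem_hull.mpr ⟨hX.1, x, hx, x', hx', e1, e2, ?_, by omega⟩
    by_contra hcon
    exact hc x hx ⟨by omega, l1⟩

theorem hull_split {c : ℕ → Base} {I : Finset (ℕ × ℕ)} (h : Internal c I) {S : Finset ℕ}
    {κ : ℕ → ℕ} (hκ : ∀ x ∈ S, ∀ y ∈ S, x ≤ y → κ x ≤ κ y) {X : Finset ℕ}
    (hX : ∀ p ∈ I, p.1 ∈ X ∧ p.2 ∈ X) (hc : ∀ p ∈ I, ∀ x ∈ S, ¬ (p.1 ≤ x ∧ x ≤ p.2))
    (R : Finset ℕ) :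
    2 * I.card + ∑ ρ ∈ R, nC c (hull S κ X ρ) ≤
      ∑ ρ ∈ R, 2 * (inside I (hull S κ X ρ)).card + nC c X := by
  classical
  set U : Finset ℕ := R.biUnion (fun ρ => hull S κ X ρ) with hU
  set J : Finset (ℕ × ℕ) := I.filter (fun p => p.1 ∉ U) with hJ
  have h1 : I.card ≤ ∑ ρ ∈ R, (inside I (hull S κ X ρ)).card + J.card := by
    have hsub : I ⊆ (R.biUnion (fun ρ => inside I (hull S κ X ρ))) ∪ J := by
      intro p hp
      rw [Finset.mem_union]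
      by_cases hpU : p.1 ∈ U
      · left
        obtain ⟨ρ, hρ, hpρ⟩ := Finset.mem_biUnion.mp hpU
        refine Finset.mem_biUnion.mpr ⟨ρ, hρ, ?_⟩
        unfold inside
        rw [Finset.mem_filter]
        exact ⟨hp, hpρ, (hull_ends (hX p hp) (h.lt p hp) (hc p hp)).mp hpρ⟩
      · right
        exact Finset.mem_filter.mpr ⟨hp, hpU⟩
    calc I.card ≤ _ := Finset.card_le_card hsub
      _ ≤ _ := Finset.card_union_le _ _
      _ ≤ _ := Nat.add_le_add_right Finset.card_biUnion_le _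
  have h2 : 2 * J.card ≤ nC c (X \ U) := by
    apply two_card_le (h.mono (Finset.filter_subset _ _))
    intro p hp
    obtain ⟨hpI, hpU⟩ := Finset.mem_filter.mp hp
    refine ⟨Finset.mem_sdiff.mpr ⟨(hX p hpI).1, hpU⟩, Finset.mem_sdiff.mpr ⟨(hX p hpI).2, ?_⟩⟩
    intro hcon
    apply hpU
    obtain ⟨ρ, hρ, hpρ⟩ := Finset.mem_biUnion.mp hcon
    exact Finset.mem_biUnion.mpr ⟨ρ, hρ, (hull_ends (hX p hpI) (h.lt p hpI) (hc p hpI)).mpr hpρ⟩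
  have h3 : nC c (X \ U) + nC c U = nC c X := by
    unfold nC
    rw [← Finset.card_union_of_disjoint]
    · congr 1
      rw [← Finset.filter_union]
      congr 1
      apply Finset.sdiff_union_of_subset
      intro n hn
      obtain ⟨ρ, -, hnρ⟩ := Finset.mem_biUnion.mp hn
      exact hull_subset _ _ _ _ hnρ
    · exact Finset.disjoint_filter_filter Finset.sdiff_disjoint
  have h4 : nC c U = ∑ ρ ∈ R, nC c (hull S κ X ρ) := by
    unfold nC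
    rw [hU, Finset.filter_biUnion, Finset.card_biUnion]
    intro ρ _ σ _ hne
    exact Finset.disjoint_filter_filter (hull_disjoint hκ X hne)
  rw [← Finset.mul_sum]
  omega

end MP8D
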