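import Pool.Agent.Lib.MP_8c24b6_lc.Det.C

/-!
MP_8c24b6_lc, lower bound near factor 2: the zigzag words.
-/

namespace MP8D

open Finset MP8C

/-- the zigzag word with run length `δ` and `K` runs per edge:
`((A^δ C^δ)^K (U^δ C^δ)^K)^∞` -/
def zig (K δ y : ℕ) : Base :=
  if y / δ % 2 = 1 then Base.C else if y / (2 * K * δ) % 2 = 0 then Base.A else Base.U

/-- the number of the edge of position `y` -/
def edge (K δ y : ℕ) : ℕ := y / (2 * K * δ)

theorem edge_mono (K δ : ℕ) : Monotone (edge K δ) := fun _ _ h => Nat.div_le_div_right h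

theorem zig_A {K δ x : ℕ} (h : zig K δ x = Base.A) : edge K δ x % 2 = 0 := by
  unfold zig at h
  unfold edge
  split_ifs at h with h1 h2
  exact h2

theorem zig_U {K δ x : ℕ} (h : zig K δ x = Base.U) : edge K δ x % 2 = 1 := by
  unfold zig at h
  unfold edge
  split_ifs at h with h1 h2
  omega

theorem zig_ne_G (K δ x : ℕ) : zig K δ x ≠ Base.G := by
  unfold zig
  split_ifs <;> simp

theorem zig_run {K δ x y : ℕ} (h : x / δ = y / δ) : zig K δ x = zig K δ y := by
  have h1 : x / (2 * K * δ) = y / (2 * K * δ) := by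
    rw [mul_comm (2 * K) δ, ← Nat.div_div_eq_div_mul x δ (2 * K),
      ← Nat.div_div_eq_div_mul y δ (2 * K), h]
  unfold zig
  rw [h, h1]

theorem zig_C {K δ x : ℕ} : zig K δ x = Base.C ↔ x / δ % 2 = 1 := by
  unfold zig
  split_ifs <;> simp_all

theorem sumC {K δ : ℕ} (hδ : 0 < δ) (p q : ℕ) (hpq : p ≤ q) :
    |∑ y ∈ Ico p q, (if zig K δ y = Base.C then (-1 : ℤ) else 1)| ≤ δ := by
  apply antiper_bound (fun y => if zig K δ y = Base.C then (-1 : ℤ) else 1) δ _ _ p q hpq
  · intro y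
    simp only [zig_C]
    rw [Nat.add_div_right _ hδ]
    rcases Nat.mod_two_eq_zero_or_one (y / δ) with h | h
    · have : (y / δ).succ % 2 = 1 := by omega
      simp [this, h]
    · have : (y / δ).succ % 2 = 0 := by omega
      simp [this, h]
  · intro y
    split_ifs <;> simp

theorem sumA {K δ : ℕ} (hK : 0 < K) (hδ : 0 < δ) (p q : ℕ) (hpq : p ≤ q) :
    |∑ y ∈ Ico p q, (if zig K δ y = Base.A then (1 : ℤ) else
      if zig K δ y = Base.U then -1 else 0)| ≤ (2 * K * δ : ℕ) := by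
  have hM : 0 < 2 * K * δ := by positivity
  apply antiper_bound (fun y => if zig K δ y = Base.A then (1 : ℤ) else
      if zig K δ y = Base.U then -1 else 0) (2 * K * δ) _ _ p q hpq
  · intro y
    have h1 : (y + 2 * K * δ) / δ % 2 = y / δ % 2 := by
      rw [Nat.add_mul_div_right _ _ hδ]
      omega
    have h2 : (y + 2 * K * δ) / (2 * K * δ) = y / (2 * K * δ) + 1 := by
      rw [Nat.add_div_right _ hM]
    unfold zig
    rw [h1, h2]
    rcases Nat.mod_two_eq_zero_or_one (y / δ) with h | h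
    · rcases Nat.mod_two_eq_zero_or_one (y / (2 * K * δ)) with h' | h'
      · have h3 : (y / (2 * K * δ) + 1) % 2 = 1 := by omega
        simp [h, h', h3]
      · have h3 : (y / (2 * K * δ) + 1) % 2 = 0 := by omega
        simp [h, h', h3]
    · simp [h]
  · intro y
    split_ifs <;> simp

/-- intervals -/
def IsIvl (H : Finset ℕ) : Prop := ∀ a ∈ H, ∀ b ∈ H, ∀ n, a ≤ n → n ≤ b → n ∈ H

theorem IsIvl.eq {H : Finset ℕ} (h : IsIvl H) : ∃ p q, p ≤ q ∧ H = Ico p q := by
  by_cases hne : H.Nonempty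
  · refine ⟨H.min' hne, H.max' hne + 1, ?_, ?_⟩
    · have := H.min'_le_max' hne
      omega
    · ext n
      rw [Finset.mem_Ico]
      constructor
      · intro hn
        exact ⟨H.min'_le n hn, Nat.lt_succ_of_le (H.le_max' n hn)⟩
      · rintro ⟨h1, h2⟩
        exact h _ (H.min'_mem hne) _ (H.max'_mem hne) n h1 (by omega)
  · rw [Finset.not_nonempty_iff_eq_empty] at hne
    exact ⟨0, 0, le_rfl, by simp [hne]⟩

theorem IsIvl.hull {X : Finset ℕ} (h : IsIvl X) (S : Finset ℕ) (κ : ℕ → ℕ) (ρ : ℕ) :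
    IsIvl (hull S κ X ρ) := by
  intro a ha b hb n h1 h2
  obtain ⟨haX, x, hx, x', hx', e1, e2, l1, l2⟩ := mem_hull.mp ha
  obtain ⟨hbX, y, hy, y', hy', f1, f2, m1, m2⟩ := mem_hull.mp hb
  exact mem_hull.mpr ⟨h a haX b hbX n h1 h2, x, hx, y', hy', e1, f2, l1.trans h1, h2.trans m2⟩

theorem nC_eq (c : ℕ → Base) (hc : ∀ x, c x ≠ Base.G) (X : Finset ℕ) :
    nC c X = cnt c Base.A X + cnt c Base.U X := by
  classical
  unfold nC cnt
  rw [← Finset.card_union_of_disjoint]
  · congr 1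
    ext x
    simp only [Finset.mem_filter, Finset.mem_union]
    have := hc x
    rcases hcx : c x <;> simp_all
  · rw [Finset.disjoint_filter]
    intro x _ h1 h2
    rw [h1] at h2
    cases h2

/-- on intervals the letters `C` are at most `δ` more than the others -/
theorem cntC_le {K δ : ℕ} (hδ : 0 < δ) {H : Finset ℕ} (h : IsIvl H) :
    cnt (zig K δ) Base.C H ≤ nC (zig K δ) H + δ := by
  obtain ⟨p, q, hpq, rfl⟩ := h.eq
  have h1 := (abs_le.mp (sumC (K := K) hδ p q hpq)).1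
  rw [Finset.sum_ite] at h1
  unfold cnt nC
  simp at h1
  have h2 : ((Finset.filter (fun x => zig K δ x ≠ Base.C) (Ico p q)).card : ℤ) =
    (Finset.filter (fun x => ¬ zig K δ x = Base.C) (Ico p q)).card := rfl
  omega

theorem nC_le {K δ : ℕ} (hδ : 0 < δ) {H : Finset ℕ} (h : IsIvl H) :
    nC (zig K δ) H ≤ cnt (zig K δ) Base.C H + δ := by
  obtain ⟨p, q, hpq, rfl⟩ := h.eq
  have h1 := (abs_le.mp (sumC (K := K) hδ p q hpq)).2
  rw [Finset.sum_ite] at h1
  unfold cnt nC
  simp at h1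
  have h2 : ((Finset.filter (fun x => zig K δ x ≠ Base.C) (Ico p q)).card : ℤ) =
    (Finset.filter (fun x => ¬ zig K δ x = Base.C) (Ico p q)).card := rfl
  omega

theorem cnt_letter_le {K δ : ℕ} (hK : 0 < K) (hδ : 0 < δ) {H : Finset ℕ} (h : IsIvl H) (b : Base)
    (hb : b = Base.A ∨ b = Base.U) :
    2 * cnt (zig K δ) b H ≤ nC (zig K δ) H + 2 * K * δ := by
  rw [nC_eq _ (zig_ne_G K δ)]
  obtain ⟨p, q, hpq, rfl⟩ := h.eq
  have h1 := abs_le.mp (sumA hK hδ p q hpq)
  have h2 : ∑ y ∈ Ico p q, (if zig K δ y = Base.A then (1 : ℤ) else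
      if zig K δ y = Base.U then -1 else 0) =
      cnt (zig K δ) Base.A (Ico p q) - cnt (zig K δ) Base.U (Ico p q) := by
    unfold cnt
    rw [Finset.card_filter, Finset.card_filter]
    push_cast
    rw [← Finset.sum_sub_distrib]
    apply Finset.sum_congr rfl
    intro y _
    split_ifs with h1 h2 <;> simp_all
  rw [h2] at h1
  obtain ⟨h3, h4⟩ := h1
  push_cast at h3 h4
  rcases hb with rfl | rfl <;> zify <;> linarith

/-- an interval meets few edges -/
theorem edges_card {K δ : ℕ} (hK : 0 < K) (hδ : 0 < δ) {H : Finset ℕ} (h : IsIvl H) :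
    ((H.image (edge K δ)).card : ℝ) * δ ≤ (H.card : ℝ) / (2 * K) + 2 * δ := by
  have hM : 0 < 2 * K * δ := by positivity
  have hKr : (0 : ℝ) < K := by exact_mod_cast hK
  have hδr : (0 : ℝ) < δ := by exact_mod_cast hδ
  obtain ⟨p, q, hpq, rfl⟩ := h.eq
  have h1 : (Finset.image (edge K δ) (Ico p q)).card ≤ (q - p) / (2 * K * δ) + 2 := by
    have hsub : Finset.image (edge K δ) (Ico p q) ⊆
        Finset.Ico (edge K δ p) (edge K δ p + ((q - p) / (2 * K * δ) + 2)) := by
      intro e he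
      obtain ⟨n, hn, rfl⟩ := Finset.mem_image.mp he
      rw [Finset.mem_Ico] at hn ⊢
      refine ⟨edge_mono K δ hn.1, ?_⟩
      unfold edge
      have h2 : n / (2 * K * δ) ≤ p / (2 * K * δ) + (q - p) / (2 * K * δ) + 1 := by
        have h3 : n ≤ p + (q - p) := by omega
        have h4 := Nat.div_le_div_right (c := 2 * K * δ) h3
        have h5 := Nat.add_div (a := p) (b := q - p) hM
        split_ifs at h5 <;> omega
      omega
    calc _ ≤ _ := Finset.card_le_card hsub
      _ = _ := by simp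
  have h2 : (((q - p) / (2 * K * δ) : ℕ) : ℝ) ≤ ((q - p : ℕ) : ℝ) / ((2 * K * δ : ℕ) : ℝ) :=
    Nat.cast_div_le
  have h3 : ((Finset.image (edge K δ) (Ico p q)).card : ℝ) ≤
      (((q - p) / (2 * K * δ) : ℕ) : ℝ) + 2 := by exact_mod_cast h1
  have h4 : (((Ico p q).card : ℕ) : ℝ) = ((q - p : ℕ) : ℝ) := by simp
  rw [h4]
  calc ((Finset.image (edge K δ) (Ico p q)).card : ℝ) * δ
      ≤ (((q - p : ℕ) : ℝ) / ((2 * K * δ : ℕ) : ℝ) + 2) * δ := by
        apply mul_le_mul_of_nonneg_right _ hδr.le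
        linarith
    _ = ((q - p : ℕ) : ℝ) / (2 * K) + 2 * δ := by
        push_cast
        field_simp

end MP8D
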