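import Pool.Agent.Lib.MP_8c24b6_lc.Det.D

/-!
MP_8c24b6_lc, lower bound near factor 2: the two sides of a pair of zigzag words with different
run lengths.
-/

namespace MP8D

open Finset MP8C

/-- letters `C` that are not enclosed count one half -/
theorem coarse {K δ : ℕ} (hK : 0 < K) (hδ : 0 < δ) {I : Finset (ℕ × ℕ)}
    (h : Internal (zig K δ) I) {X S : Finset ℕ} (hXi : IsIvl X)
    (hX : ∀ p ∈ I, p.1 ∈ X ∧ p.2 ∈ X) (hS : S ⊆ X) (hSC : ∀ x ∈ S, zig K δ x = Base.C)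
    (hc : ∀ p ∈ I, ∀ x ∈ S, ¬ (p.1 ≤ x ∧ x ≤ p.2)) :
    (S.card : ℝ) + 2 * I.card ≤ nC (zig K δ) X + (X.card : ℝ) / (2 * K) + 3 * δ := by
  have hcov : cov I ⊆ X := by
    intro n hn
    obtain ⟨p, hp, hpn⟩ := Finset.mem_biUnion.mp hn
    rw [Finset.mem_Icc] at hpn
    exact hXi _ (hX p hp).1 _ (hX p hp).2 n hpn.1 hpn.2
  have hd : Disjoint S (cov I) := by
    rw [Finset.disjoint_left]
    intro x hx hx'
    obtain ⟨p, hp, hpn⟩ := Finset.mem_biUnion.mp hx'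
    rw [Finset.mem_Icc] at hpn
    exact hc p hp x hx hpn
  have h1 := key h (sumC hδ) (edge_mono K δ) (fun x => zig_A) (fun x => zig_U) hcov hS hSC hd
  have h2 := cntC_le (K := K) hδ hXi
  have h3 := edges_card hK hδ hXi
  have h1' : (S.card : ℝ) + 2 * I.card ≤
      cnt (zig K δ) Base.C X + (X.image (edge K δ)).card * δ := by exact_mod_cast h1
  have h2' : (cnt (zig K δ) Base.C X : ℝ) ≤ nC (zig K δ) X + δ := by exact_mod_cast h2
  linarith

/-- weight of a matched letter on the fine side: 1 for `C`, 2 for the others -/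
def wt : Base → ℕ
  | .C => 1
  | _ => 2

theorem fine {K δ : ℕ} (hK : 0 < K) (hδ : 0 < δ) {I : Finset (ℕ × ℕ)}
    (h : Internal (zig K δ) I) {X S : Finset ℕ} (hXi : IsIvl X)
    (hX : ∀ p ∈ I, p.1 ∈ X ∧ p.2 ∈ X) (hS : S ⊆ X)
    (hc : ∀ p ∈ I, ∀ x ∈ S, ¬ (p.1 ≤ x ∧ x ≤ p.2)) {κ : ℕ → ℕ}
    (hκ : ∀ x ∈ S, ∀ y ∈ S, x ≤ y → κ x ≤ κ y)
    (hlet : ∀ x ∈ S, ∀ y ∈ S, κ x = κ y → zig K δ x = zig K δ y) :
    ((∑ x ∈ S, wt (zig K δ x) : ℕ) : ℝ) + 2 * I.card ≤
      nC (zig K δ) X + (X.card : ℝ) / (2 * K) + (S.image κ).card * ((2 * K + 3) * δ) := by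
  classical
  have hKr : (0 : ℝ) < K := by exact_mod_cast hK
  have hδr : (0 : ℝ) < δ := by exact_mod_cast hδ
  set R := S.image κ with hR
  set H : ℕ → Finset ℕ := fun ρ => hull S κ X ρ with hH
  have hfib : ∀ ρ ∈ R, ((∑ x ∈ S.filter (fun x => κ x = ρ), wt (zig K δ x) : ℕ) : ℝ) +
      2 * (inside I (H ρ)).card ≤
      nC (zig K δ) (H ρ) + ((H ρ).card : ℝ) / (2 * K) + (2 * K + 3) * δ := by
    intro ρ hρ
    obtain ⟨x0, hx0, hx0ρ⟩ := Finset.mem_image.mp hρ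
    set Sρ := S.filter (fun x => κ x = ρ) with hSρ
    have hlρ : ∀ x ∈ Sρ, zig K δ x = zig K δ x0 := by
      intro x hx
      obtain ⟨hx1, hx2⟩ := Finset.mem_filter.mp hx
      exact hlet x hx1 x0 hx0 (by rw [hx2, hx0ρ])
    have hIi : Internal (zig K δ) (inside I (H ρ)) := h.mono (Finset.filter_subset _ _)
    have hHi : IsIvl (H ρ) := hXi.hull S κ ρ
    have hends : ∀ p ∈ inside I (H ρ), p.1 ∈ H ρ ∧ p.2 ∈ H ρ := by
      intro p hp
      exact (Finset.mem_filter.mp hp).2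
    have hSH : Sρ ⊆ H ρ := by
      intro x hx
      obtain ⟨hx1, hx2⟩ := Finset.mem_filter.mp hx
      exact mem_hull.mpr ⟨hS hx1, x, hx1, x, hx1, hx2, hx2, le_rfl, le_rfl⟩
    have hcc : ∀ p ∈ inside I (H ρ), ∀ x ∈ Sρ, ¬ (p.1 ≤ x ∧ x ≤ p.2) := by
      intro p hp x hx
      exact hc p (Finset.mem_filter.mp hp).1 x (Finset.mem_filter.mp hx).1
    have hHn : (0 : ℝ) ≤ ((H ρ).card : ℝ) / (2 * K) := by positivity
    have hwt : ∑ x ∈ Sρ, wt (zig K δ x) = Sρ.card * wt (zig K δ x0) := by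
      rw [Finset.sum_congr rfl (fun x hx => by rw [hlρ x hx])]
      simp
    rw [hwt]
    have hcase : ∀ b, (b = Base.A ∨ b = Base.U) → zig K δ x0 = b →
        ((Sρ.card * wt (zig K δ x0) : ℕ) : ℝ) + 2 * (inside I (H ρ)).card ≤
        nC (zig K δ) (H ρ) + ((H ρ).card : ℝ) / (2 * K) + (2 * K + 3) * δ := by
      intro b hb hbx
      have h1 := card_le_letter hIi hends b hb hSH (fun x hx => by rw [hlρ x hx, hbx]) (by
        intro p hp x hx
        have h2 := hcc p hp x hx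
        have h3 := hIi.lt p hp
        constructor <;> intro h4 <;> apply h2 <;> constructor <;> omega)
      have h2 := cnt_letter_le hK hδ hHi b hb
      have hw : wt (zig K δ x0) = 2 := by
        rw [hbx]
        rcases hb with rfl | rfl <;> rfl
      rw [hw]
      have h3 : Sρ.card * 2 + 2 * (inside I (H ρ)).card ≤ nC (zig K δ) (H ρ) + 2 * K * δ := by
        omega
      have h4 : ((Sρ.card * 2 : ℕ) : ℝ) + 2 * (inside I (H ρ)).card ≤
          nC (zig K δ) (H ρ) + 2 * K * δ := by exact_mod_cast h3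
      nlinarith
    rcases hbx : zig K δ x0 with _ | _ | _ | _
    · rw [← hbx]
      exact hcase _ (Or.inl rfl) hbx
    · have h1 := coarse hK hδ hIi hHi hends hSH (fun x hx => by rw [hlρ x hx, hbx]) hcc
      have h5 : (0 : ℝ) ≤ 2 * K * δ := by positivity
      simp only [wt, mul_one]
      nlinarith
    · exact absurd hbx (zig_ne_G _ _ _)
    · rw [← hbx]
      exact hcase _ (Or.inr rfl) hbx
  have hsum := Finset.sum_le_sum hfib
  have hsplit := hull_split h hκ hX hc R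
  have hw : ∑ ρ ∈ R, ∑ x ∈ S.filter (fun x => κ x = ρ), wt (zig K δ x) =
      ∑ x ∈ S, wt (zig K δ x) := by
    rw [hR]
    exact Finset.sum_fiberwise_of_maps_to (fun x hx => Finset.mem_image_of_mem κ hx) _
  have hcards : ∑ ρ ∈ R, (H ρ).card ≤ X.card := by
    rw [← Finset.card_biUnion (fun ρ _ σ _ hne => hull_disjoint hκ X hne)]
    apply Finset.card_le_card
    intro n hn
    obtain ⟨ρ, -, hnρ⟩ := Finset.mem_biUnion.mp hn
    exact hull_subset _ _ _ _ hnρ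
  have hsplit' : (2 : ℝ) * I.card + ∑ ρ ∈ R, (nC (zig K δ) (H ρ) : ℝ) ≤
      ∑ ρ ∈ R, 2 * ((inside I (H ρ)).card : ℝ) + nC (zig K δ) X := by exact_mod_cast hsplit
  have hw' : ∑ ρ ∈ R, ((∑ x ∈ S.filter (fun x => κ x = ρ), wt (zig K δ x) : ℕ) : ℝ) =
      ((∑ x ∈ S, wt (zig K δ x) : ℕ) : ℝ) := by exact_mod_cast hw
  have hcards' : ∑ ρ ∈ R, ((H ρ).card : ℝ) / (2 * K) ≤ (X.card : ℝ) / (2 * K) := by
    rw [← Finset.sum_div]
    apply div_le_div_of_nonneg_right _ (by positivity)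
    exact_mod_cast hcards
  rw [Finset.sum_add_distrib, Finset.sum_add_distrib, Finset.sum_add_distrib, hw',
    Finset.sum_const, nsmul_eq_mul] at hsum
  linarith

end MP8D
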