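import Pool.Agent.Lib.MP_8c24b6_lc.Det.E

/-!
MP_8c24b6_lc, lower bound near factor 2: two zigzag words with different run lengths have no
matching with more than half of the letters.
-/

namespace MP8D

open Finset MP8C

/-- cross pairs: a common subsequence of `u` and `v` -/
structure Cross (u v : ℕ → Base) (P : Finset (ℕ × ℕ)) : Prop where
  mono : ∀ p ∈ P, ∀ q ∈ P, (p.1 < q.1 ↔ p.2 < q.2)
  eq : ∀ p ∈ P, u p.1 = v p.2

theorem Cross.inj {u v : ℕ → Base} {P : Finset (ℕ × ℕ)} (h : Cross u v P) :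
    ∀ p ∈ P, ∀ q ∈ P, (p.1 = q.1 ↔ p.2 = q.2) := by
  intro p hp q hq
  have h1 := h.mono p hp q hq
  have h2 := h.mono q hq p hp
  omega

theorem Cross.mono' {u v : ℕ → Base} {P Q : Finset (ℕ × ℕ)} (h : Cross u v P) (hQ : Q ⊆ P) :
    Cross u v Q :=
  ⟨fun p hp q hq => h.mono p (hQ hp) q (hQ hq), fun p hp => h.eq p (hQ hp)⟩

theorem Cross.swap {u v : ℕ → Base} {P : Finset (ℕ × ℕ)} (h : Cross u v P) :
    Cross v u (P.image Prod.swap) := by
  constructor
  · intro p hp q hq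
    obtain ⟨p', hp', rfl⟩ := Finset.mem_image.mp hp
    obtain ⟨q', hq', rfl⟩ := Finset.mem_image.mp hq
    exact (h.mono p' hp' q' hq').symm
  · intro p hp
    obtain ⟨p', hp', rfl⟩ := Finset.mem_image.mp hp
    exact (h.eq p' hp').symm

theorem Cross.card_fst {u v : ℕ → Base} {P : Finset (ℕ × ℕ)} (h : Cross u v P) :
    (P.image Prod.fst).card = P.card := by
  apply Finset.card_image_of_injOn
  intro p hp q hq hpq
  exact Prod.ext hpq ((h.inj p hp q hq).mp hpq)

theorem Cross.card_snd {u v : ℕ → Base} {P : Finset (ℕ × ℕ)} (h : Cross u v P) :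
    (P.image Prod.snd).card = P.card := by
  apply Finset.card_image_of_injOn
  intro p hp q hq hpq
  exact Prod.ext ((h.inj p hp q hq).mpr hpq) hpq

/-- an interval meets few blocks of length `δ` -/
theorem runs_card {δ : ℕ} (hδ : 0 < δ) {H : Finset ℕ} (h : IsIvl H) :
    ((H.image (fun y => y / δ)).card : ℝ) ≤ (H.card : ℝ) / δ + 2 := by
  have hδr : (0 : ℝ) < δ := by exact_mod_cast hδ
  obtain ⟨p, q, hpq, rfl⟩ := h.eq
  have h1 : (Finset.image (fun y => y / δ) (Ico p q)).card ≤ (q - p) / δ + 2 := by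
    have hsub : Finset.image (fun y => y / δ) (Ico p q) ⊆
        Finset.Ico (p / δ) (p / δ + ((q - p) / δ + 2)) := by
      intro e he
      obtain ⟨n, hn, rfl⟩ := Finset.mem_image.mp he
      rw [Finset.mem_Ico] at hn ⊢
      refine ⟨Nat.div_le_div_right hn.1, ?_⟩
      have h3 : n ≤ p + (q - p) := by omega
      have h4 := Nat.div_le_div_right (c := δ) h3
      have h5 := Nat.add_div (a := p) (b := q - p) hδ
      split_ifs at h5 <;> omega
    calc _ ≤ _ := Finset.card_le_card hsub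
      _ = _ := by simp
  have h2 : (((q - p) / δ : ℕ) : ℝ) ≤ ((q - p : ℕ) : ℝ) / (δ : ℝ) := Nat.cast_div_le
  have h3 : ((Finset.image (fun y => y / δ) (Ico p q)).card : ℝ) ≤
      (((q - p) / δ : ℕ) : ℝ) + 2 := by exact_mod_cast h1
  have h4 : (((Ico p q).card : ℕ) : ℝ) = ((q - p : ℕ) : ℝ) := by simp
  rw [h4]
  linarith

/-- CELL LEMMA: the word `zig K δ` on `X` against the word `zig K δ'` on `X'`, `δ` much smaller
than `δ'`. -/
theorem cell {K δ δ' : ℕ} (hK : 0 < K) (hδ : 0 < δ) (hδ' : δ * (2 * K * (2 * K + 3)) ≤ δ')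
    {P I J : Finset (ℕ × ℕ)} (hP : Cross (zig K δ) (zig K δ') P) (hI : Internal (zig K δ) I)
    (hJ : Internal (zig K δ') J) {X X' : Finset ℕ} (hXi : IsIvl X) (hXi' : IsIvl X')
    (hIX : ∀ p ∈ I, p.1 ∈ X ∧ p.2 ∈ X) (hJX : ∀ p ∈ J, p.1 ∈ X' ∧ p.2 ∈ X')
    (hPX : ∀ p ∈ P, p.1 ∈ X ∧ p.2 ∈ X')
    (hPI : ∀ p ∈ I, ∀ q ∈ P, ¬ (p.1 ≤ q.1 ∧ q.1 ≤ p.2))
    (hPJ : ∀ p ∈ J, ∀ q ∈ P, ¬ (p.1 ≤ q.2 ∧ q.2 ≤ p.2)) :
    2 * (P.card : ℝ) + 2 * I.card + 2 * J.card ≤ nC (zig K δ) X + nC (zig K δ') X' +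
      (X.card : ℝ) / K + (X'.card : ℝ) / K + (4 * K + 9) * δ' := by
  classical
  have hKr : (1 : ℝ) ≤ K := by exact_mod_cast hK
  have hδr : (0 : ℝ) < δ := by exact_mod_cast hδ
  have hδ'0 : 0 < δ' := lt_of_lt_of_le (by positivity) hδ'
  have hδ'r : (0 : ℝ) < δ' := by exact_mod_cast hδ'0
  have hDr : (δ : ℝ) * (2 * K * (2 * K + 3)) ≤ δ' := by exact_mod_cast hδ'
  -- the partner function
  set g : ℕ → ℕ := fun x => (P.filter (fun p => p.1 = x)).sup Prod.snd with hg
  have hgP : ∀ p ∈ P, g p.1 = p.2 := by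
    intro p hp
    simp only [hg]
    apply le_antisymm
    · apply Finset.sup_le
      intro q hq
      obtain ⟨hq1, hq2⟩ := Finset.mem_filter.mp hq
      exact ((hP.inj q hq1 p hp).mp hq2).le
    · exact Finset.le_sup (f := Prod.snd) (Finset.mem_filter.mpr ⟨hp, rfl⟩)
  set S := P.image Prod.fst with hS
  set κ : ℕ → ℕ := fun x => g x / δ' with hκ
  have hfine := fine (S := S) (κ := κ) hK hδ hI hXi hIX (by
      intro x hx
      obtain ⟨p, hp, rfl⟩ := Finset.mem_image.mp hx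
      exact (hPX p hp).1) (by
      intro p hp x hx
      obtain ⟨q, hq, rfl⟩ := Finset.mem_image.mp hx
      exact hPI p hp q hq) (by
      intro x hx y hy hxy
      obtain ⟨p, hp, rfl⟩ := Finset.mem_image.mp hx
      obtain ⟨q, hq, rfl⟩ := Finset.mem_image.mp hy
      simp only [hκ]
      rw [hgP p hp, hgP q hq]
      apply Nat.div_le_div_right
      rcases hxy.lt_or_eq with h | h
      · exact ((hP.mono p hp q hq).mp h).le
      · exact ((hP.inj p hp q hq).mp h).le) (by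
      intro x hx y hy hxy
      obtain ⟨p, hp, rfl⟩ := Finset.mem_image.mp hx
      obtain ⟨q, hq, rfl⟩ := Finset.mem_image.mp hy
      simp only [hκ] at hxy
      rw [hgP p hp, hgP q hq] at hxy
      rw [hP.eq p hp, hP.eq q hq]
      exact zig_run hxy)
  set PC := P.filter (fun p => zig K δ' p.2 = Base.C) with hPC
  have hPCs := (hP.mono' (Finset.filter_subset (fun p => zig K δ' p.2 = Base.C) P)).card_snd
  have hcoarse := coarse (S := PC.image Prod.snd) hK hδ'0 hJ hXi' hJX (by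
      intro x hx
      obtain ⟨p, hp, rfl⟩ := Finset.mem_image.mp hx
      exact (hPX p (Finset.mem_filter.mp hp).1).2) (by
      intro x hx
      obtain ⟨p, hp, rfl⟩ := Finset.mem_image.mp hx
      exact (Finset.mem_filter.mp hp).2) (by
      intro p hp x hx
      obtain ⟨q, hq, rfl⟩ := Finset.mem_image.mp hx
      exact hPJ p hp q (Finset.mem_filter.mp hq).1)
  have hruns : ((S.image κ).card : ℝ) ≤ (X'.card : ℝ) / δ' + 2 := by
    refine le_trans ?_ (runs_card hδ'0 hXi')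
    have : (S.image κ).card ≤ (X'.image (fun y => y / δ')).card := by
      apply Finset.card_le_card
      intro e he
      obtain ⟨x, hx, rfl⟩ := Finset.mem_image.mp he
      obtain ⟨p, hp, rfl⟩ := Finset.mem_image.mp hx
      simp only [hκ]
      rw [hgP p hp]
      exact Finset.mem_image_of_mem _ (hPX p hp).2
    exact_mod_cast this
  have hcount : 2 * P.card = ∑ x ∈ S, wt (zig K δ x) + (PC.image Prod.snd).card := by
    rw [hPCs, hS, Finset.sum_image (fun p hp q hq hpq => Prod.ext hpq ((hP.inj p hp q hq).mp hpq)),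
      Finset.card_filter, ← Finset.sum_add_distrib]
    rw [mul_comm, ← smul_eq_mul, ← Finset.sum_const]
    apply Finset.sum_congr rfl
    intro p hp
    rw [hP.eq p hp]
    rcases h : zig K δ' p.2 <;> simp [wt]
  have hcount' : 2 * (P.card : ℝ) =
      ((∑ x ∈ S, wt (zig K δ x) : ℕ) : ℝ) + (PC.image Prod.snd).card := by exact_mod_cast hcount
  have hX0 : (0 : ℝ) ≤ X.card := by positivity
  have hX0' : (0 : ℝ) ≤ X'.card := by positivity
  have h2 : ((S.image κ).card : ℝ) * ((2 * K + 3) * δ) ≤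
      (X'.card : ℝ) / (2 * K) + 2 * (2 * K + 3) * δ' := by
    have h3 : ((S.image κ).card : ℝ) * ((2 * K + 3) * δ) ≤
        ((X'.card : ℝ) / δ' + 2) * ((2 * K + 3) * δ) :=
      mul_le_mul_of_nonneg_right hruns (by positivity)
    have h4 : (X'.card : ℝ) / δ' * ((2 * K + 3) * δ) ≤ (X'.card : ℝ) / (2 * K) := by
      rw [div_mul_eq_mul_div, div_le_div_iff₀ hδ'r (by positivity)]
      nlinarith
    have h5 : 2 * ((2 * (K : ℝ) + 3) * δ) ≤ 2 * (2 * K + 3) * δ' := by
      have hKK : (1 : ℝ) ≤ 2 * K * (2 * K + 3) := by nlinarith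
      have h8 : (δ : ℝ) * 1 ≤ δ * (2 * K * (2 * K + 3)) := mul_le_mul_of_nonneg_left hKK hδr.le
      have h9 : (δ : ℝ) ≤ δ' := by linarith
      have h10 : (2 * (K : ℝ) + 3) * δ ≤ (2 * K + 3) * δ' :=
        mul_le_mul_of_nonneg_left h9 (by positivity)
      linarith
    nlinarith
  have h6 : (X.card : ℝ) / (2 * K) ≤ (X.card : ℝ) / K := by
    apply div_le_div_of_nonneg_left hX0 (by positivity)
    linarith
  have h7 : (X'.card : ℝ) / (2 * K) + (X'.card : ℝ) / (2 * K) = (X'.card : ℝ) / K := by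
    field_simp
    ring
  nlinarith

end MP8D
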