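import Pool.Agent.Lib.MP_8c24b6_lc.Det.F

/-!
MP_8c24b6_lc, lower bound near factor 2: cross pairs in cells with equal letters.
-/

namespace MP8D

open Finset MP8C

/-- strictly increasing set of pairs -/
def Chain (Q : Finset (ℕ × ℕ)) : Prop := ∀ p ∈ Q, ∀ q ∈ Q, (p.1 < q.1 ↔ p.2 < q.2)

theorem chain_cover {P : Finset (ℕ × ℕ)} (hP : Chain P) {L : ℕ} (hL : 0 < L)
    (good : ℕ × ℕ → Prop) :
    ∃ Q : Finset (ℕ × ℕ), Chain Q ∧ (∀ q ∈ Q, good q ∧ ∃ p ∈ P, q = (p.1 / L, p.2 / L)) ∧
      ∀ P' ⊆ P, (∀ p ∈ P', good (p.1 / L, p.2 / L)) → P'.card ≤ 2 * L * Q.card := by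
  classical
  have hinj : ∀ p ∈ P, ∀ q ∈ P, (p.1 = q.1 ↔ p.2 = q.2) := by
    intro p hp q hq
    have h1 := hP p hp q hq
    have h2 := hP q hq p hp
    omega
  set cell : ℕ × ℕ → ℕ × ℕ := fun p => (p.1 / L, p.2 / L) with hcell
  set S : Finset (ℕ × ℕ) := (P.image cell).filter good with hS
  have hcomp : ∀ c ∈ S, ∀ d ∈ S, (c.1 ≤ d.1 ∧ c.2 ≤ d.2) ∨ (d.1 ≤ c.1 ∧ d.2 ≤ c.2) := by
    intro c hc d hd
    obtain ⟨p, hp, rfl⟩ := Finset.mem_image.mp (Finset.mem_filter.mp hc).1
    obtain ⟨q, hq, rfl⟩ := Finset.mem_image.mp (Finset.mem_filter.mp hd).1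
    have h1 := hP p hp q hq
    have h2 := hinj p hp q hq
    rcases le_total p.1 q.1 with h | h
    · left
      exact ⟨Nat.div_le_div_right h, Nat.div_le_div_right (by omega)⟩
    · right
      exact ⟨Nat.div_le_div_right h, Nat.div_le_div_right (by omega)⟩
  set F : Finset (Finset (ℕ × ℕ)) := S.powerset.filter (fun Q => Chain Q) with hF
  have hne : F.Nonempty := ⟨∅, by simp [hF, Chain]⟩
  obtain ⟨Q, hQF, hQmax⟩ := Finset.exists_max_image F Finset.card hne
  obtain ⟨hQS, hQc⟩ := Finset.mem_filter.mp hQF
  rw [Finset.mem_powerset] at hQS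
  have hcov : ∀ c ∈ S, ∃ q ∈ Q, c.1 = q.1 ∨ c.2 = q.2 := by
    intro c hc
    by_contra hcon
    push Not at hcon
    have hcQ : c ∉ Q := fun h => (hcon c h).1 rfl
    have hstrict : ∀ q ∈ Q, (c.1 < q.1 ↔ c.2 < q.2) ∧ (q.1 < c.1 ↔ q.2 < c.2) := by
      intro q hq
      obtain ⟨h1, h2⟩ := hcon q hq
      rcases hcomp c hc q (hQS hq) with h | h
      · constructor <;> omega
      · constructor <;> omega
    have hins : insert c Q ∈ F := by
      rw [hF, Finset.mem_filter, Finset.mem_powerset]
      refine ⟨?_, ?_⟩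
      · intro d hd
        rcases Finset.mem_insert.mp hd with rfl | hd
        · exact hc
        · exact hQS hd
      · intro p hp q hq
        rcases Finset.mem_insert.mp hp with e | hp'
        · rcases Finset.mem_insert.mp hq with e' | hq'
          · simp [e, e']
          · rw [e]
            exact (hstrict q hq').1
        · rcases Finset.mem_insert.mp hq with e' | hq'
          · rw [e']
            exact (hstrict p hp').2
          · exact hQc p hp' q hq'
    have := hQmax _ hins
    rw [Finset.card_insert_of_notMem hcQ] at this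
    omega
  refine ⟨Q, hQc, ?_, ?_⟩
  · intro q hq
    obtain ⟨h1, h2⟩ := Finset.mem_filter.mp (hQS hq)
    obtain ⟨p, hp, hpq⟩ := Finset.mem_image.mp h1
    exact ⟨h2, p, hp, hpq.symm⟩
  · intro P' hP' hgood
    have hrow : ∀ i, (P.filter (fun p => p.1 / L = i)).card ≤ L := by
      intro i
      have h1 : ((P.filter (fun p => p.1 / L = i)).image Prod.fst).card =
          (P.filter (fun p => p.1 / L = i)).card := by
        apply Finset.card_image_of_injOn
        intro p hp q hq hpq
        have hp' := (Finset.mem_filter.mp hp).1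
        have hq' := (Finset.mem_filter.mp hq).1
        exact Prod.ext hpq ((hinj p hp' q hq').mp hpq)
      rw [← h1]
      have h2 : (P.filter (fun p => p.1 / L = i)).image Prod.fst ⊆ Ico (i * L) (i * L + L) := by
        intro x hx
        obtain ⟨p, hp, rfl⟩ := Finset.mem_image.mp hx
        have h3 := (Finset.mem_filter.mp hp).2
        rw [Finset.mem_Ico]
        rw [Nat.div_eq_iff hL] at h3
        constructor <;> omega
      calc _ ≤ _ := Finset.card_le_card h2
        _ = L := by simp
    have hcol : ∀ i, (P.filter (fun p => p.2 / L = i)).card ≤ L := by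
      intro i
      have h1 : ((P.filter (fun p => p.2 / L = i)).image Prod.snd).card =
          (P.filter (fun p => p.2 / L = i)).card := by
        apply Finset.card_image_of_injOn
        intro p hp q hq hpq
        have hp' := (Finset.mem_filter.mp hp).1
        have hq' := (Finset.mem_filter.mp hq).1
        exact Prod.ext ((hinj p hp' q hq').mpr hpq) hpq
      rw [← h1]
      have h2 : (P.filter (fun p => p.2 / L = i)).image Prod.snd ⊆ Ico (i * L) (i * L + L) := by
        intro x hx
        obtain ⟨p, hp, rfl⟩ := Finset.mem_image.mp hx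
        have h3 := (Finset.mem_filter.mp hp).2
        rw [Finset.mem_Ico]
        rw [Nat.div_eq_iff hL] at h3
        constructor <;> omega
      calc _ ≤ _ := Finset.card_le_card h2
        _ = L := by simp
    have hsub : P' ⊆ Q.biUnion (fun q => P.filter (fun p => p.1 / L = q.1) ∪
        P.filter (fun p => p.2 / L = q.2)) := by
      intro p hp
      have hpS : cell p ∈ S :=
        Finset.mem_filter.mpr ⟨Finset.mem_image_of_mem cell (hP' hp), hgood p hp⟩
      obtain ⟨q, hq, hpq⟩ := hcov _ hpS
      refine Finset.mem_biUnion.mpr ⟨q, hq, ?_⟩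
      rw [Finset.mem_union, Finset.mem_filter, Finset.mem_filter]
      rcases hpq with h | h
      · exact Or.inl ⟨hP' hp, h⟩
      · exact Or.inr ⟨hP' hp, h⟩
    calc P'.card ≤ _ := Finset.card_le_card hsub
      _ ≤ _ := Finset.card_biUnion_le
      _ ≤ ∑ _q ∈ Q, (L + L) := by
          apply Finset.sum_le_sum
          intro q _
          exact (Finset.card_union_le _ _).trans (Nat.add_le_add (hrow _) (hcol _))
      _ = 2 * L * Q.card := by
          rw [Finset.sum_const, smul_eq_mul]
          ring

end MP8D
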