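import Pool.Agent.Lib.MP_8c24b6_lc.Det.G

/-!
MP_8c24b6_lc, lower bound near factor 2: the global inequality for two sequences of zigzag words.
-/

namespace MP8D

open Finset MP8C

theorem Internal.congr {c c' : ℕ → Base} {I : Finset (ℕ × ℕ)} (h : Internal c I)
    (hcc : ∀ p ∈ I, c p.1 = c' p.1 ∧ c p.2 = c' p.2) : Internal c' I := by
  refine ⟨h.lt, fun p hp => ?_, h.inj⟩
  rw [← (hcc p hp).1, ← (hcc p hp).2]
  exact h.au p hp

theorem nC_congr {c c' : ℕ → Base} {X : Finset ℕ} (h : ∀ n ∈ X, c n = c' n) :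
    nC c X = nC c' X := by
  unfold nC
  congr 1
  apply Finset.filter_congr
  intro n hn
  rw [h n hn]

theorem Cross.congr {u v u' v' : ℕ → Base} {P : Finset (ℕ × ℕ)} (h : Cross u v P)
    (hu : ∀ p ∈ P, u p.1 = u' p.1) (hv : ∀ p ∈ P, v p.2 = v' p.2) : Cross u' v' P :=
  ⟨h.mono, fun p hp => by rw [← hu p hp, ← hv p hp, h.eq p hp]⟩

/-- partner of a first coordinate -/
def partU (P : Finset (ℕ × ℕ)) (x : ℕ) : ℕ := (P.filter (fun p => p.1 = x)).sup Prod.snd

/-- partner of a second coordinate -/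
def partV (P : Finset (ℕ × ℕ)) (y : ℕ) : ℕ := (P.filter (fun p => p.2 = y)).sup Prod.fst

theorem partU_eq {u v : ℕ → Base} {P : Finset (ℕ × ℕ)} (hP : Cross u v P) {p : ℕ × ℕ}
    (hp : p ∈ P) : partU P p.1 = p.2 := by
  unfold partU
  apply le_antisymm
  · apply Finset.sup_le
    intro q hq
    obtain ⟨hq1, hq2⟩ := Finset.mem_filter.mp hq
    exact ((hP.inj q hq1 p hp).mp hq2).le
  · exact Finset.le_sup (f := Prod.snd) (Finset.mem_filter.mpr ⟨hp, rfl⟩)

theorem partV_eq {u v : ℕ → Base} {P : Finset (ℕ × ℕ)} (hP : Cross u v P) {p : ℕ × ℕ}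
    (hp : p ∈ P) : partV P p.2 = p.1 := by
  unfold partV
  apply le_antisymm
  · apply Finset.sup_le
    intro q hq
    obtain ⟨hq1, hq2⟩ := Finset.mem_filter.mp hq
    exact ((hP.inj q hq1 p hp).mpr hq2).le
  · exact Finset.le_sup (f := Prod.fst) (Finset.mem_filter.mpr ⟨hp, rfl⟩)

/-- the word of the sequence `a`: the `i`-th block of length `L` is a zigzag word with run length
`δ (a i)` -/
def word (K L : ℕ) (δ a : ℕ → ℕ) (n : ℕ) : Base := zig K (δ (a (n / L))) n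

/-- one cell -/
theorem cell_bound {K L Δ T : ℕ} (hK : 0 < K) {δ : ℕ → ℕ} (hδ0 : ∀ t < T, 0 < δ t)
    (hδ : ∀ s t, s < t → t < T → δ s * (2 * K * (2 * K + 3)) ≤ δ t) (hΔ : ∀ t < T, δ t ≤ Δ)
    {a b : ℕ → ℕ} {i j : ℕ} (ha : a i < T) (hb : b j < T) {P I J : Finset (ℕ × ℕ)}
    (hP : Cross (word K L δ a) (word K L δ b) P) (hI : Internal (word K L δ a) I)
    (hJ : Internal (word K L δ b) J) {X X' : Finset ℕ} (hXi : IsIvl X) (hXi' : IsIvl X')
    (hX : ∀ n ∈ X, n / L = i) (hX' : ∀ n ∈ X', n / L = j)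
    (hIX : ∀ p ∈ I, p.1 ∈ X ∧ p.2 ∈ X) (hJX : ∀ p ∈ J, p.1 ∈ X' ∧ p.2 ∈ X')
    (hPX : ∀ p ∈ P, p.1 ∈ X ∧ p.2 ∈ X')
    (hPI : ∀ p ∈ I, ∀ q ∈ P, ¬ (p.1 ≤ q.1 ∧ q.1 ≤ p.2))
    (hPJ : ∀ p ∈ J, ∀ q ∈ P, ¬ (p.1 ≤ q.2 ∧ q.2 ≤ p.2)) :
    2 * (P.card : ℝ) + 2 * I.card + 2 * J.card ≤ nC (word K L δ a) X + nC (word K L δ b) X' +
      (X.card : ℝ) / K + (X'.card : ℝ) / K + (4 * K + 9) * Δ +
      2 * ((P.filter (fun p => a (p.1 / L) = b (p.2 / L))).card : ℝ) := by
  classical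
  have hKr : (0 : ℝ) < K := by exact_mod_cast hK
  have hwa : ∀ n ∈ X, word K L δ a n = zig K (δ (a i)) n := by
    intro n hn
    unfold word
    rw [hX n hn]
  have hwb : ∀ n ∈ X', word K L δ b n = zig K (δ (b j)) n := by
    intro n hn
    unfold word
    rw [hX' n hn]
  rw [nC_congr hwa, nC_congr hwb]
  have hI' : Internal (zig K (δ (a i))) I :=
    hI.congr (fun p hp => ⟨hwa _ (hIX p hp).1, hwa _ (hIX p hp).2⟩)
  have hJ' : Internal (zig K (δ (b j))) J :=
    hJ.congr (fun p hp => ⟨hwb _ (hJX p hp).1, hwb _ (hJX p hp).2⟩)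
  have hP' : Cross (zig K (δ (a i))) (zig K (δ (b j))) P :=
    hP.congr (fun p hp => hwa _ (hPX p hp).1) (fun p hp => hwb _ (hPX p hp).2)
  have hΔi : (δ (a i) : ℝ) ≤ Δ := by exact_mod_cast hΔ _ ha
  have hΔj : (δ (b j) : ℝ) ≤ Δ := by exact_mod_cast hΔ _ hb
  have hΔ0 : (0 : ℝ) ≤ Δ := by positivity
  have hf : (0 : ℝ) ≤ ((P.filter (fun p => a (p.1 / L) = b (p.2 / L))).card : ℝ) := by positivity
  rcases lt_trichotomy (a i) (b j) with h | h | h
  · have h1 := cell hK (hδ0 _ ha) (hδ _ _ h hb) hP' hI' hJ' hXi hXi' hIX hJX hPX hPI hPJ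
    have h2 : (4 * (K : ℝ) + 9) * δ (b j) ≤ (4 * K + 9) * Δ :=
      mul_le_mul_of_nonneg_left hΔj (by positivity)
    linarith
  · have h1 : P.filter (fun p => a (p.1 / L) = b (p.2 / L)) = P := by
      apply Finset.filter_true_of_mem
      intro p hp
      rw [hX _ (hPX p hp).1, hX' _ (hPX p hp).2, h]
    rw [h1]
    have h2 : (2 : ℝ) * I.card ≤ nC (zig K (δ (a i))) X := by
      exact_mod_cast two_card_le hI' hIX
    have h3 : (2 : ℝ) * J.card ≤ nC (zig K (δ (b j))) X' := by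
      exact_mod_cast two_card_le hJ' hJX
    have h4 : (0 : ℝ) ≤ (X.card : ℝ) / K := by positivity
    have h5 : (0 : ℝ) ≤ (X'.card : ℝ) / K := by positivity
    have h6 : (0 : ℝ) ≤ (4 * K + 9) * Δ := by positivity
    linarith
  · have h1 := cell hK (hδ0 _ hb) (hδ _ _ h ha) hP'.swap hJ' hI' hXi' hXi hJX hIX (by
      intro p hp
      obtain ⟨q, hq, rfl⟩ := Finset.mem_image.mp hp
      exact ⟨(hPX q hq).2, (hPX q hq).1⟩) (by
      intro p hp q hq
      obtain ⟨q', hq', rfl⟩ := Finset.mem_image.mp hq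
      exact hPJ p hp q' hq') (by
      intro p hp q hq
      obtain ⟨q', hq', rfl⟩ := Finset.mem_image.mp hq
      exact hPI p hp q' hq')
    have hc : (P.image Prod.swap).card = P.card :=
      Finset.card_image_of_injective _ Prod.swap_injective
    rw [hc] at h1
    have h2 : (4 * (K : ℝ) + 9) * δ (a i) ≤ (4 * K + 9) * Δ :=
      mul_le_mul_of_nonneg_left hΔi (by positivity)
    linarith

theorem global {K L m T Δ : ℕ} (hK : 0 < K) (hL : 0 < L) {δ : ℕ → ℕ} (hδ0 : ∀ t < T, 0 < δ t)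
    (hδ : ∀ s t, s < t → t < T → δ s * (2 * K * (2 * K + 3)) ≤ δ t) (hΔ : ∀ t < T, δ t ≤ Δ)
    {a b : ℕ → ℕ} (ha : ∀ i < m, a i < T) (hb : ∀ i < m, b i < T) {P I J : Finset (ℕ × ℕ)}
    (hP : Cross (word K L δ a) (word K L δ b) P) (hI : Internal (word K L δ a) I)
    (hJ : Internal (word K L δ b) J) (hPN : ∀ p ∈ P, p.1 < m * L ∧ p.2 < m * L)
    (hIN : ∀ p ∈ I, p.1 < m * L ∧ p.2 < m * L) (hJN : ∀ p ∈ J, p.1 < m * L ∧ p.2 < m * L)
    (hPI : ∀ p ∈ I, ∀ q ∈ P, ¬ (p.1 ≤ q.1 ∧ q.1 ≤ p.2))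
    (hPJ : ∀ p ∈ J, ∀ q ∈ P, ¬ (p.1 ≤ q.2 ∧ q.2 ≤ p.2)) :
    ∃ Q : Finset (ℕ × ℕ), Chain Q ∧ (∀ q ∈ Q, q.1 < m ∧ q.2 < m ∧ a q.1 = b q.2) ∧
      2 * (P.card : ℝ) + 2 * I.card + 2 * J.card ≤ nC (word K L δ a) (range (m * L)) +
        nC (word K L δ b) (range (m * L)) + 2 * ((m * L : ℕ) : ℝ) / K +
        2 * m * ((4 * K + 9) * Δ) + 4 * L * Q.card := by
  classical
  obtain ⟨Q, hQc, hQ, hQP⟩ := chain_cover hP.mono hL (fun c => a c.1 = b c.2)
  refine ⟨Q, hQc, ?_, ?_⟩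
  · intro q hq
    obtain ⟨h1, p, hp, rfl⟩ := hQ q hq
    refine ⟨?_, ?_, h1⟩
    · exact Nat.div_lt_of_lt_mul (by rw [mul_comm]; exact (hPN p hp).1)
    · exact Nat.div_lt_of_lt_mul (by rw [mul_comm]; exact (hPN p hp).2)
  set u := word K L δ a with hu
  set v := word K L δ b with hv
  set X := range (m * L) with hXdef
  have hXi : IsIvl X := by
    intro x hx y hy n h1 h2
    rw [hXdef, Finset.mem_range] at *
    omega
  set ρ : ℕ × ℕ → ℕ := fun p => p.1 / L + p.2 / L with hρ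
  set R := P.image ρ with hR
  set S := P.image Prod.fst with hS
  set S' := P.image Prod.snd with hS'
  set κ : ℕ → ℕ := fun x => x / L + partU P x / L with hκ
  set κ' : ℕ → ℕ := fun y => partV P y / L + y / L with hκ'
  have hκρ : ∀ p ∈ P, κ p.1 = ρ p := by
    intro p hp
    simp only [hκ, hρ]
    rw [partU_eq hP hp]
  have hκρ' : ∀ p ∈ P, κ' p.2 = ρ p := by
    intro p hp
    simp only [hκ', hρ]
    rw [partV_eq hP hp]
  have hle : ∀ p ∈ P, ∀ q ∈ P, (p.1 ≤ q.1 ↔ p.2 ≤ q.2) := by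
    intro p hp q hq
    have h1 := hP.mono q hq p hp
    omega
  have hρle : ∀ p ∈ P, ∀ q ∈ P, p.1 ≤ q.1 → ρ p ≤ ρ q := by
    intro p hp q hq h
    exact Nat.add_le_add (Nat.div_le_div_right h) (Nat.div_le_div_right ((hle p hp q hq).mp h))
  have hκm : ∀ x ∈ S, ∀ y ∈ S, x ≤ y → κ x ≤ κ y := by
    intro x hx y hy hxy
    obtain ⟨p, hp, rfl⟩ := Finset.mem_image.mp hx
    obtain ⟨q, hq, rfl⟩ := Finset.mem_image.mp hy
    rw [hκρ p hp, hκρ q hq]
    exact hρle p hp q hq hxy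
  have hκm' : ∀ x ∈ S', ∀ y ∈ S', x ≤ y → κ' x ≤ κ' y := by
    intro x hx y hy hxy
    obtain ⟨p, hp, rfl⟩ := Finset.mem_image.mp hx
    obtain ⟨q, hq, rfl⟩ := Finset.mem_image.mp hy
    rw [hκρ' p hp, hκρ' q hq]
    exact hρle p hp q hq ((hle p hp q hq).mpr hxy)
  have hIX : ∀ p ∈ I, p.1 ∈ X ∧ p.2 ∈ X := by
    intro p hp
    rw [hXdef, Finset.mem_range, Finset.mem_range]
    exact hIN p hp
  have hJX : ∀ p ∈ J, p.1 ∈ X ∧ p.2 ∈ X := by
    intro p hp
    rw [hXdef, Finset.mem_range, Finset.mem_range]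
    exact hJN p hp
  have hIS : ∀ p ∈ I, ∀ x ∈ S, ¬ (p.1 ≤ x ∧ x ≤ p.2) := by
    intro p hp x hx
    obtain ⟨q, hq, rfl⟩ := Finset.mem_image.mp hx
    exact hPI p hp q hq
  have hJS : ∀ p ∈ J, ∀ x ∈ S', ¬ (p.1 ≤ x ∧ x ≤ p.2) := by
    intro p hp x hx
    obtain ⟨q, hq, rfl⟩ := Finset.mem_image.mp hx
    exact hPJ p hp q hq
  have hU := hull_split hI hκm hIX hIS R
  have hV := hull_split hJ hκm' hJX hJS R
  set H : ℕ → Finset ℕ := fun r => hull S κ X r with hH
  set H' : ℕ → Finset ℕ := fun r => hull S' κ' X r with hH'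
  set same : Finset (ℕ × ℕ) := P.filter (fun p => a (p.1 / L) = b (p.2 / L)) with hsame
  have hcell : ∀ r ∈ R, 2 * ((P.filter (fun p => ρ p = r)).card : ℝ) +
      2 * (inside I (H r)).card + 2 * (inside J (H' r)).card ≤
      nC u (H r) + nC v (H' r) + ((H r).card : ℝ) / K + ((H' r).card : ℝ) / K +
      (4 * K + 9) * Δ + 2 * ((same.filter (fun p => ρ p = r)).card : ℝ) := by
    intro r hr
    obtain ⟨p0, hp0, hp0r⟩ := Finset.mem_image.mp hr
    have hij : ∀ p ∈ P, ρ p = r → p.1 / L = p0.1 / L ∧ p.2 / L = p0.2 / L := by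
      intro p hp hpr
      rw [← hp0r] at hpr
      simp only [hρ] at hpr
      rcases le_total p.1 p0.1 with h | h
      · have h1 := Nat.div_le_div_right (c := L) h
        have h2 := Nat.div_le_div_right (c := L) ((hle p hp p0 hp0).mp h)
        omega
      · have h1 := Nat.div_le_div_right (c := L) h
        have h2 := Nat.div_le_div_right (c := L) ((hle p0 hp0 p hp).mp h)
        omega
    have hHi : ∀ n ∈ H r, n / L = p0.1 / L := by
      intro n hn
      obtain ⟨-, x, hx, x', hx', e1, e2, l1, l2⟩ := mem_hull.mp hn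
      obtain ⟨p, hp, rfl⟩ := Finset.mem_image.mp hx
      obtain ⟨q, hq, rfl⟩ := Finset.mem_image.mp hx'
      rw [hκρ p hp] at e1
      rw [hκρ q hq] at e2
      have h1 := (hij p hp e1).1
      have h2 := (hij q hq e2).1
      have h3 := Nat.div_le_div_right (c := L) l1
      have h4 := Nat.div_le_div_right (c := L) l2
      omega
    have hHi' : ∀ n ∈ H' r, n / L = p0.2 / L := by
      intro n hn
      obtain ⟨-, x, hx, x', hx', e1, e2, l1, l2⟩ := mem_hull.mp hn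
      obtain ⟨p, hp, rfl⟩ := Finset.mem_image.mp hx
      obtain ⟨q, hq, rfl⟩ := Finset.mem_image.mp hx'
      rw [hκρ' p hp] at e1
      rw [hκρ' q hq] at e2
      have h1 := (hij p hp e1).2
      have h2 := (hij q hq e2).2
      have h3 := Nat.div_le_div_right (c := L) l1
      have h4 := Nat.div_le_div_right (c := L) l2
      omega
    have hlt1 : p0.1 / L < m := Nat.div_lt_of_lt_mul (by rw [mul_comm]; exact (hPN p0 hp0).1)
    have hlt2 : p0.2 / L < m := Nat.div_lt_of_lt_mul (by rw [mul_comm]; exact (hPN p0 hp0).2)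
    have hPs : P.filter (fun p => ρ p = r) ⊆ P := Finset.filter_subset _ _
    have hI's : inside I (H r) ⊆ I := Finset.filter_subset _ _
    have hJ's : inside J (H' r) ⊆ J := Finset.filter_subset _ _
    have h1 := cell_bound (L := L) hK hδ0 hδ hΔ (ha _ hlt1) (hb _ hlt2) (hP.mono' hPs)
      (hI.mono hI's) (hJ.mono hJ's) (hXi.hull S κ r) (hXi.hull S' κ' r) hHi hHi'
      (fun p hp => (Finset.mem_filter.mp hp).2) (fun p hp => (Finset.mem_filter.mp hp).2) (by
        intro p hp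
        obtain ⟨hp1, hp2⟩ := Finset.mem_filter.mp hp
        refine ⟨mem_hull.mpr ⟨?_, p.1, Finset.mem_image_of_mem _ hp1, p.1,
          Finset.mem_image_of_mem _ hp1, ?_, ?_, le_rfl, le_rfl⟩,
          mem_hull.mpr ⟨?_, p.2, Finset.mem_image_of_mem _ hp1, p.2,
          Finset.mem_image_of_mem _ hp1, ?_, ?_, le_rfl, le_rfl⟩⟩
        · exact Finset.mem_range.mpr (hPN p hp1).1
        · rw [hκρ p hp1, hp2]
        · rw [hκρ p hp1, hp2]
        · exact Finset.mem_range.mpr (hPN p hp1).2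
        · rw [hκρ' p hp1, hp2]
        · rw [hκρ' p hp1, hp2])
      (fun p hp q hq => hPI p (hI's hp) q (hPs hq)) (fun p hp q hq => hPJ p (hJ's hp) q (hPs hq))
    have h2 : (P.filter (fun p => ρ p = r)).filter (fun p => a (p.1 / L) = b (p.2 / L)) =
        same.filter (fun p => ρ p = r) := by
      rw [hsame, Finset.filter_filter, Finset.filter_filter]
      apply Finset.filter_congr
      intro p _
      exact and_comm
    rw [h2] at h1
    exact h1
  have hsum := Finset.sum_le_sum hcell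
  have hPsum : ∑ r ∈ R, (P.filter (fun p => ρ p = r)).card = P.card :=
    (Finset.card_eq_sum_card_fiberwise (fun p hp => Finset.mem_image_of_mem ρ hp)).symm
  have hSsum : ∑ r ∈ R, (same.filter (fun p => ρ p = r)).card = same.card :=
    (Finset.card_eq_sum_card_fiberwise (fun p hp =>
      Finset.mem_image_of_mem ρ (Finset.filter_subset _ _ hp))).symm
  have hRcard : (R.card : ℝ) ≤ 2 * m := by
    have : R.card ≤ 2 * m := by
      have hsub : R ⊆ range (2 * m) := by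
        intro r hr
        obtain ⟨p, hp, rfl⟩ := Finset.mem_image.mp hr
        have h1 : p.1 / L < m := Nat.div_lt_of_lt_mul (by rw [mul_comm]; exact (hPN p hp).1)
        have h2 : p.2 / L < m := Nat.div_lt_of_lt_mul (by rw [mul_comm]; exact (hPN p hp).2)
        rw [Finset.mem_range]
        simp only [hρ]
        omega
      calc R.card ≤ _ := Finset.card_le_card hsub
        _ = 2 * m := by simp
    exact_mod_cast this
  have hcards : ∀ (S₀ : Finset ℕ) (κ₀ : ℕ → ℕ), (∀ x ∈ S₀, ∀ y ∈ S₀, x ≤ y → κ₀ x ≤ κ₀ y) →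
      ∑ r ∈ R, ((hull S₀ κ₀ X r).card : ℝ) / K ≤ ((m * L : ℕ) : ℝ) / K := by
    intro S₀ κ₀ hm
    rw [← Finset.sum_div]
    apply div_le_div_of_nonneg_right _ (by positivity)
    have : ∑ r ∈ R, (hull S₀ κ₀ X r).card ≤ m * L := by
      rw [← Finset.card_biUnion (fun r _ s _ hne => hull_disjoint hm X hne)]
      calc _ ≤ X.card := by
            apply Finset.card_le_card
            intro n hn
            obtain ⟨r, -, hnr⟩ := Finset.mem_biUnion.mp hn
            exact hull_subset _ _ _ _ hnr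
        _ = m * L := by simp [hXdef]
    exact_mod_cast this
  have hc1 := hcards S κ hκm
  have hc2 := hcards S' κ' hκm'
  have hU' : (2 : ℝ) * I.card + ∑ r ∈ R, (nC u (H r) : ℝ) ≤
      ∑ r ∈ R, 2 * ((inside I (H r)).card : ℝ) + nC u X := by exact_mod_cast hU
  have hV' : (2 : ℝ) * J.card + ∑ r ∈ R, (nC v (H' r) : ℝ) ≤
      ∑ r ∈ R, 2 * ((inside J (H' r)).card : ℝ) + nC v X := by exact_mod_cast hV
  have hPsum' : ∑ r ∈ R, 2 * ((P.filter (fun p => ρ p = r)).card : ℝ) = 2 * P.card := by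
    rw [← Finset.mul_sum]
    exact_mod_cast congrArg (fun n => 2 * n) hPsum
  have hSsum' : ∑ r ∈ R, 2 * ((same.filter (fun p => ρ p = r)).card : ℝ) = 2 * same.card := by
    rw [← Finset.mul_sum]
    exact_mod_cast congrArg (fun n => 2 * n) hSsum
  have hsameQ : (same.card : ℝ) ≤ 2 * L * Q.card := by
    have : same.card ≤ 2 * L * Q.card := hQP same (Finset.filter_subset _ _)
      (fun p hp => (Finset.mem_filter.mp hp).2)
    exact_mod_cast this
  have hconst : ∑ _r ∈ R, (4 * (K : ℝ) + 9) * Δ ≤ 2 * m * ((4 * K + 9) * Δ) := by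
    rw [Finset.sum_const, nsmul_eq_mul]
    exact mul_le_mul_of_nonneg_right hRcard (by positivity)
  simp only [Finset.sum_add_distrib] at hsum
  rw [hPsum', hSsum'] at hsum
  have e : 2 * ((m * L : ℕ) : ℝ) / K = ((m * L : ℕ) : ℝ) / K + ((m * L : ℕ) : ℝ) / K := by ring
  rw [e]
  linarith

end MP8D
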