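import Pool.Agent.Lib.MP_8c24b6_lc.Det.H

/-!
MP_8c24b6_lc, lower bound near factor 2: from foldings of strings to cross pairs and internal pairs.
-/

namespace MP8D

open Finset MP8C

theorem bddAbove_fold (x : List Base) : BddAbove {m | ∃ M, IsFolding x M ∧ M.card = m} := by
  refine ⟨(range x.length ×ˢ range x.length).card, ?_⟩
  rintro m ⟨M, hM, rfl⟩
  apply Finset.card_le_card
  intro p hp
  obtain ⟨-, s, t, hs, ht, -⟩ := hM.1 p hp
  rw [Finset.mem_product, Finset.mem_range, Finset.mem_range]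
  exact ⟨(List.getElem?_eq_some_iff.mp hs).1, (List.getElem?_eq_some_iff.mp ht).1⟩

theorem le_opt {x : List Base} {M : Finset (ℕ × ℕ)} (h : IsFolding x M) : M.card ≤ opt x :=
  le_csSup (bddAbove_fold x) ⟨M, h, rfl⟩

theorem exists_opt (x : List Base) : ∃ M, IsFolding x M ∧ M.card = opt x := by
  have : opt x ∈ {m | ∃ M, IsFolding x M ∧ M.card = m} := by
    apply Nat.sSup_mem _ (bddAbove_fold x)
    exact ⟨0, ∅, by simp [IsFolding], rfl⟩
  exact this

/-- the complementary letter -/
def comp : Base → Base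
  | .A => .U
  | .U => .A
  | .C => .G
  | .G => .C

theorem comp_iff {s t : Base} : Complementary s t ↔ t = comp s := by
  cases s <;> cases t <;> simp [Complementary, comp]

theorem comp_comp (s : Base) : comp (comp s) = s := by cases s <;> rfl

/-- the first half of the string -/
def left (u : ℕ → Base) (N : ℕ) : List Base := (List.range N).map u

/-- the second half of the string: the reverse complement of `v`, followed by `r` letters `A` -/
def right (v : ℕ → Base) (N r : ℕ) : List Base :=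
  (List.range (N + r)).map (fun i => if i < N then comp (v (N - 1 - i)) else Base.A)

theorem left_length (u : ℕ → Base) (N : ℕ) : (left u N).length = N := by simp [left]

theorem right_length (v : ℕ → Base) (N r : ℕ) : (right v N r).length = N + r := by simp [right]

theorem get_left {u v : ℕ → Base} {N r n : ℕ} (h : n < N) :
    (left u N ++ right v N r)[n]? = some (u n) := by
  rw [List.getElem?_append_left (by rw [left_length]; exact h)]
  simp [left, h]

theorem get_right {u v : ℕ → Base} {N r n : ℕ} (h : N ≤ n) (h' : n < 2 * N) :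
    (left u N ++ right v N r)[n]? = some (comp (v (2 * N - 1 - n))) := by
  rw [List.getElem?_append_right (by rw [left_length]; exact h), left_length]
  have h1 : n - N < N + r := by omega
  have h2 : n - N < N := by omega
  have h3 : N - 1 - (n - N) = 2 * N - 1 - n := by omega
  simp [right, h1, h2, h3]

/-- every folding of `u (rc v) A^r` gives cross pairs and internal pairs -/
theorem decompose {u v : ℕ → Base} (hu : ∀ n, u n ≠ Base.G) (hv : ∀ n, v n ≠ Base.G) {N r : ℕ}
    {M : Finset (ℕ × ℕ)} (hM : IsFolding (left u N ++ right v N r) M) :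
    ∃ P I J : Finset (ℕ × ℕ), Cross u v P ∧ Internal u I ∧ Internal v J ∧
      (∀ p ∈ P, p.1 < N ∧ p.2 < N) ∧ (∀ p ∈ I, p.1 < N ∧ p.2 < N) ∧
      (∀ p ∈ J, p.1 < N ∧ p.2 < N) ∧
      (∀ p ∈ I, ∀ q ∈ P, ¬ (p.1 ≤ q.1 ∧ q.1 ≤ p.2)) ∧
      (∀ p ∈ J, ∀ q ∈ P, ¬ (p.1 ≤ q.2 ∧ q.2 ≤ p.2)) ∧
      M.card ≤ P.card + I.card + J.card + r := by
  classical
  obtain ⟨hM1, hM2, hM3⟩ := hM
  set M1 := M.filter (fun p => p.2 < N) with hM1d
  set M2 := M.filter (fun p => p.1 < N ∧ N ≤ p.2 ∧ p.2 < 2 * N) with hM2d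
  set M3 := M.filter (fun p => N ≤ p.1 ∧ p.2 < 2 * N) with hM3d
  set M4 := M.filter (fun p => 2 * N ≤ p.2) with hM4d
  set f2 : ℕ × ℕ → ℕ × ℕ := fun p => (p.1, 2 * N - 1 - p.2) with hf2
  set f3 : ℕ × ℕ → ℕ × ℕ := fun p => (2 * N - 1 - p.2, 2 * N - 1 - p.1) with hf3
  have hlet : ∀ p ∈ M, ∃ s t, (left u N ++ right v N r)[p.1]? = some s ∧
      (left u N ++ right v N r)[p.2]? = some t ∧ t = comp s := by
    intro p hp
    obtain ⟨-, s, t, hs, ht, hc⟩ := hM1 p hp
    exact ⟨s, t, hs, ht, comp_iff.mp hc⟩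
  have hau : ∀ s t : Base, s ≠ Base.G → t ≠ Base.G → t = comp s →
      (s = Base.A ∧ t = Base.U) ∨ (s = Base.U ∧ t = Base.A) := by
    intro s t hs ht h
    subst h
    cases s <;> simp_all [comp]
  refine ⟨M2.image f2, M1, M3.image f3, ⟨?_, ?_⟩, ⟨?_, ?_, ?_⟩, ⟨?_, ?_, ?_⟩, ?_, ?_, ?_, ?_, ?_,
    ?_⟩
  · intro p hp q hq
    obtain ⟨p', hp', rfl⟩ := Finset.mem_image.mp hp
    obtain ⟨q', hq', rfl⟩ := Finset.mem_image.mp hq
    obtain ⟨hpM, hp1, hp2, hp3⟩ := Finset.mem_filter.mp hp'
    obtain ⟨hqM, hq1, hq2, hq3⟩ := Finset.mem_filter.mp hq'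
    have c1 := hM3 p' hpM q' hqM
    have c2 := hM3 q' hqM p' hpM
    simp only [hf2]
    by_cases hne : p' = q'
    · subst hne
      simp
    · have c3 := hM2 p' hpM q' hqM hne
      omega
  · intro p hp
    obtain ⟨p', hp', rfl⟩ := Finset.mem_image.mp hp
    obtain ⟨hpM, hp1, hp2, hp3⟩ := Finset.mem_filter.mp hp'
    obtain ⟨s, t, hs, ht, hst⟩ := hlet p' hpM
    rw [get_left hp1] at hs
    rw [get_right hp2 hp3] at ht
    simp only [Option.some.injEq] at hs ht
    simp only [hf2]
    rw [hs, ← comp_comp (v _), ht, hst, comp_comp]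
  · intro p hp
    exact (hM1 p (Finset.mem_filter.mp hp).1).1
  · intro p hp
    obtain ⟨hpM, hp2⟩ := Finset.mem_filter.mp hp
    have hlt := (hM1 p hpM).1
    obtain ⟨s, t, hs, ht, hst⟩ := hlet p hpM
    rw [get_left (by omega)] at hs
    rw [get_left hp2] at ht
    simp only [Option.some.injEq] at hs ht
    subst hs
    subst ht
    exact hau _ _ (hu _) (hu _) hst
  · intro p hp q hq hne
    exact hM2 p (Finset.mem_filter.mp hp).1 q (Finset.mem_filter.mp hq).1 hne
  · intro p hp
    obtain ⟨p', hp', rfl⟩ := Finset.mem_image.mp hp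
    obtain ⟨hpM, hp1, hp2⟩ := Finset.mem_filter.mp hp'
    have hlt := (hM1 p' hpM).1
    simp only [hf3]
    omega
  · intro p hp
    obtain ⟨p', hp', rfl⟩ := Finset.mem_image.mp hp
    obtain ⟨hpM, hp1, hp2⟩ := Finset.mem_filter.mp hp'
    have hlt := (hM1 p' hpM).1
    obtain ⟨s, t, hs, ht, hst⟩ := hlet p' hpM
    rw [get_right hp1 (by omega)] at hs
    rw [get_right (by omega) hp2] at ht
    simp only [Option.some.injEq] at hs ht
    simp only [hf3]
    apply hau _ _ (hv _) (hv _)
    rw [← comp_comp (v (2 * N - 1 - p'.1)), hs, ← comp_comp (v (2 * N - 1 - p'.2)), ht, hst]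
    rw [comp_comp]
  · intro p hp q hq hne
    obtain ⟨p', hp', rfl⟩ := Finset.mem_image.mp hp
    obtain ⟨q', hq', rfl⟩ := Finset.mem_image.mp hq
    obtain ⟨hpM, hp1, hp2⟩ := Finset.mem_filter.mp hp'
    obtain ⟨hqM, hq1, hq2⟩ := Finset.mem_filter.mp hq'
    have hlt := (hM1 p' hpM).1
    have hlt' := (hM1 q' hqM).1
    have hne' : p' ≠ q' := fun h => hne (by rw [h])
    have c3 := hM2 p' hpM q' hqM hne'
    simp only [hf3]
    omega
  · intro p hp
    obtain ⟨p', hp', rfl⟩ := Finset.mem_image.mp hp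
    obtain ⟨hpM, hp1, hp2, hp3⟩ := Finset.mem_filter.mp hp'
    simp only [hf2]
    omega
  · intro p hp
    obtain ⟨hpM, hp2⟩ := Finset.mem_filter.mp hp
    have hlt := (hM1 p hpM).1
    omega
  · intro p hp
    obtain ⟨p', hp', rfl⟩ := Finset.mem_image.mp hp
    obtain ⟨hpM, hp1, hp2⟩ := Finset.mem_filter.mp hp'
    have hlt := (hM1 p' hpM).1
    simp only [hf3]
    omega
  · intro p hp q hq
    obtain ⟨hpM, hp2⟩ := Finset.mem_filter.mp hp
    obtain ⟨q', hq', rfl⟩ := Finset.mem_image.mp hq
    obtain ⟨hqM, hq1, hq2, hq3⟩ := Finset.mem_filter.mp hq'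
    have hne : p ≠ q' := by
      intro h
      rw [h] at hp2
      omega
    have c1 := hM3 p hpM q' hqM
    have c3 := hM2 p hpM q' hqM hne
    simp only [hf2]
    omega
  · intro p hp q hq
    obtain ⟨p', hp', rfl⟩ := Finset.mem_image.mp hp
    obtain ⟨hpM, hp1, hp2⟩ := Finset.mem_filter.mp hp'
    obtain ⟨q', hq', rfl⟩ := Finset.mem_image.mp hq
    obtain ⟨hqM, hq1, hq2, hq3⟩ := Finset.mem_filter.mp hq'
    have hlt := (hM1 p' hpM).1
    have hne : q' ≠ p' := by
      intro h
      rw [h] at hq1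
      omega
    have c1 := hM3 q' hqM p' hpM
    have c3 := hM2 q' hqM p' hpM hne
    simp only [hf2, hf3]
    omega
  · have hc2 : (M2.image f2).card = M2.card := by
      apply Finset.card_image_of_injOn
      intro p hp q hq hpq
      obtain ⟨hpM, hp1, hp2, hp3⟩ := Finset.mem_filter.mp hp
      obtain ⟨hqM, hq1, hq2, hq3⟩ := Finset.mem_filter.mp hq
      simp only [hf2, Prod.mk.injEq] at hpq
      exact Prod.ext hpq.1 (by omega)
    have hc3 : (M3.image f3).card = M3.card := by
      apply Finset.card_image_of_injOn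
      intro p hp q hq hpq
      obtain ⟨hpM, hp1, hp2⟩ := Finset.mem_filter.mp hp
      obtain ⟨hqM, hq1, hq2⟩ := Finset.mem_filter.mp hq
      have hlt := (hM1 p hpM).1
      have hlt' := (hM1 q hqM).1
      simp only [hf3, Prod.mk.injEq] at hpq
      exact Prod.ext (by omega) (by omega)
    have hc4 : M4.card ≤ r := by
      have h1 : (M4.image Prod.snd).card = M4.card := by
        apply Finset.card_image_of_injOn
        intro p hp q hq hpq
        by_contra hne
        exact (hM2 p (Finset.mem_filter.mp hp).1 q (Finset.mem_filter.mp hq).1 hne).2.2.2 hpq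
      rw [← h1]
      have h2 : M4.image Prod.snd ⊆ Ico (2 * N) (2 * N + r) := by
        intro n hn
        obtain ⟨p, hp, rfl⟩ := Finset.mem_image.mp hn
        obtain ⟨hpM, hp2⟩ := Finset.mem_filter.mp hp
        obtain ⟨s, t, hs, ht, hst⟩ := hlet p hpM
        have := (List.getElem?_eq_some_iff.mp ht).1
        rw [List.length_append, left_length, right_length] at this
        rw [Finset.mem_Ico]
        omega
      calc _ ≤ _ := Finset.card_le_card h2
        _ = r := by simp
    have hsub : M ⊆ ((M2 ∪ M1) ∪ M3) ∪ M4 := by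
      intro p hp
      have hlt := (hM1 p hp).1
      simp only [Finset.mem_union, hM1d, hM2d, hM3d, hM4d, Finset.mem_filter]
      by_cases h1 : p.2 < N
      · tauto
      · by_cases h2 : 2 * N ≤ p.2
        · tauto
        · by_cases h3 : p.1 < N
          · left; left; left
            exact ⟨hp, h3, by omega, by omega⟩
          · left; right
            exact ⟨hp, by omega, by omega⟩
    rw [hc2, hc3]
    calc M.card ≤ _ := Finset.card_le_card hsub
      _ ≤ (((M2 ∪ M1) ∪ M3)).card + M4.card := Finset.card_union_le _ _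
      _ ≤ ((M2 ∪ M1).card + M3.card) + M4.card :=
        Nat.add_le_add_right (Finset.card_union_le _ _) _
      _ ≤ ((M2.card + M1.card) + M3.card) + M4.card :=
        Nat.add_le_add_right (Nat.add_le_add_right (Finset.card_union_le _ _) _) _
      _ ≤ _ := by omega

/-- a common subsequence of `u` and `v` gives a folding of `u (rc v) A^r` -/
theorem le_opt_of_cross {u v : ℕ → Base} {N r : ℕ} {P : Finset (ℕ × ℕ)} (hP : Cross u v P)
    (hN : ∀ p ∈ P, p.1 < N ∧ p.2 < N) : P.card ≤ opt (left u N ++ right v N r) := by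
  classical
  set f : ℕ × ℕ → ℕ × ℕ := fun p => (p.1, 2 * N - 1 - p.2) with hf
  have hc : (P.image f).card = P.card := by
    apply Finset.card_image_of_injOn
    intro p hp q hq hpq
    simp only [hf, Prod.mk.injEq] at hpq
    have := hN p hp
    have := hN q hq
    exact Prod.ext hpq.1 (by omega)
  rw [← hc]
  apply le_opt
  refine ⟨?_, ?_, ?_⟩
  · intro p hp
    obtain ⟨p', hp', rfl⟩ := Finset.mem_image.mp hp
    have h1 := hN p' hp'
    simp only [hf]
    refine ⟨by omega, u p'.1, comp (v p'.2), get_left h1.1, ?_, ?_⟩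
    · rw [get_right (by omega) (by omega)]
      congr 3
      omega
    · rw [comp_iff, hP.eq p' hp']
  · intro p hp q hq hne
    obtain ⟨p', hp', rfl⟩ := Finset.mem_image.mp hp
    obtain ⟨q', hq', rfl⟩ := Finset.mem_image.mp hq
    have h1 := hN p' hp'
    have h2 := hN q' hq'
    have h3 := hP.mono p' hp' q' hq'
    have h4 := hP.inj p' hp' q' hq'
    have hne' : ¬ (p'.1 = q'.1) := by
      intro h
      apply hne
      have : p' = q' := Prod.ext h (h4.mp h)
      rw [this]
    simp only [hf]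
    omega
  · intro p hp q hq
    obtain ⟨p', hp', rfl⟩ := Finset.mem_image.mp hp
    obtain ⟨q', hq', rfl⟩ := Finset.mem_image.mp hq
    have h1 := hN p' hp'
    have h2 := hN q' hq'
    have h3 := hP.mono p' hp' q' hq'
    simp only [hf]
    omega

end MP8D
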