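import Pool.Agent.Lib.MP_8c24b6_lc.Det.I

/-!
MP_8c24b6_lc, lower bound near factor 2: upper bound for the optimal folding of
`word a · rc (word b) · A^r`.
-/

namespace MP8D

open Finset MP8C

theorem word_ne_G (K L : ℕ) (δ a : ℕ → ℕ) (n : ℕ) : word K L δ a n ≠ Base.G := zig_ne_G _ _ _

theorem nC_word {K L T Δ : ℕ} (hL : 0 < L) {δ : ℕ → ℕ} (hδ0 : ∀ t < T, 0 < δ t)
    (hΔ : ∀ t < T, δ t ≤ Δ) {a : ℕ → ℕ} (m : ℕ) (ha : ∀ i < m, a i < T) :
    2 * nC (word K L δ a) (range (m * L)) ≤ m * (L + Δ) := by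
  induction m with
  | zero => simp [nC]
  | succ m ih =>
    have ih := ih (fun i hi => ha i (by omega))
    have h1 : range ((m + 1) * L) = range (m * L) ∪ Ico (m * L) (m * L + L) := by
      ext n
      rw [Finset.mem_union, Finset.mem_range, Finset.mem_range, Finset.mem_Ico, add_mul, one_mul]
      omega
    have h2 : nC (word K L δ a) (range ((m + 1) * L)) ≤
        nC (word K L δ a) (range (m * L)) + nC (word K L δ a) (Ico (m * L) (m * L + L)) := by
      unfold nC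
      rw [h1, Finset.filter_union]
      exact Finset.card_union_le _ _
    have h3 : nC (word K L δ a) (Ico (m * L) (m * L + L)) =
        nC (zig K (δ (a m))) (Ico (m * L) (m * L + L)) := by
      apply nC_congr
      intro n hn
      rw [Finset.mem_Ico] at hn
      unfold word
      have : n / L = m := by
        rw [Nat.div_eq_iff hL]
        constructor <;> omega
      rw [this]
    have hi : IsIvl (Ico (m * L) (m * L + L)) := by
      intro x hx y hy n h1 h2
      rw [Finset.mem_Ico] at *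
      omega
    have h4 := nC_le (K := K) (hδ0 _ (ha m (by omega))) hi
    have h5 : nC (zig K (δ (a m))) (Ico (m * L) (m * L + L)) +
        cnt (zig K (δ (a m))) Base.C (Ico (m * L) (m * L + L)) = L := by
      unfold nC cnt
      rw [add_comm, Finset.card_filter_add_card_filter_not]
      simp
    have h6 := hΔ _ (ha m (by omega))
    have h7 : (m + 1) * (L + Δ) = m * (L + Δ) + (L + Δ) := by ring
    omega

theorem opt_word_le {K L m T Δ r : ℕ} (hK : 0 < K) (hL : 0 < L) {δ : ℕ → ℕ}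
    (hδ0 : ∀ t < T, 0 < δ t)
    (hδ : ∀ s t, s < t → t < T → δ s * (2 * K * (2 * K + 3)) ≤ δ t) (hΔ : ∀ t < T, δ t ≤ Δ)
    {a b : ℕ → ℕ} (ha : ∀ i < m, a i < T) (hb : ∀ i < m, b i < T) :
    ∃ Q : Finset (ℕ × ℕ), Chain Q ∧ (∀ q ∈ Q, q.1 < m ∧ q.2 < m ∧ a q.1 = b q.2) ∧
      (opt (left (word K L δ a) (m * L) ++ right (word K L δ b) (m * L) r) : ℝ) ≤
        m * (L + Δ) / 2 + ((m * L : ℕ) : ℝ) / K + m * ((4 * K + 9) * Δ) + 2 * L * Q.card + r := by
  obtain ⟨M, hM, hMc⟩ := exists_opt (left (word K L δ a) (m * L) ++ right (word K L δ b) (m * L) r)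
  obtain ⟨P, I, J, hP, hI, hJ, hPN, hIN, hJN, hPI, hPJ, hcard⟩ :=
    decompose (word_ne_G K L δ a) (word_ne_G K L δ b) hM
  obtain ⟨Q, hQ1, hQ2, hQ3⟩ := global hK hL hδ0 hδ hΔ ha hb hP hI hJ hPN hIN hJN hPI hPJ
  refine ⟨Q, hQ1, hQ2, ?_⟩
  rw [← hMc]
  have h1 : (M.card : ℝ) ≤ P.card + I.card + J.card + r := by exact_mod_cast hcard
  have h2 : 2 * (nC (word K L δ a) (range (m * L)) : ℝ) ≤ m * (L + Δ) := by
    exact_mod_cast nC_word hL hδ0 hΔ m ha
  have h3 : 2 * (nC (word K L δ b) (range (m * L)) : ℝ) ≤ m * (L + Δ) := by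
    exact_mod_cast nC_word hL hδ0 hΔ m hb
  have e : 2 * ((m * L : ℕ) : ℝ) / K = ((m * L : ℕ) : ℝ) / K + ((m * L : ℕ) : ℝ) / K := by ring
  rw [e] at hQ3
  linarith

end MP8D
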