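import Pool.Agent.Lib.MP_8c24b6_lc.Det.G

/-!
MP_8c24b6_lc, lower bound near factor 2: few sequences have a long common subsequence with a given
sequence.
-/

namespace MP8D

open Finset

/-- extension of a finite sequence by zeros -/
def ext {m T : ℕ} (a : Fin m → Fin T) (i : ℕ) : ℕ := if h : i < m then (a ⟨i, h⟩ : ℕ) else 0

theorem ext_lt {m T : ℕ} (a : Fin m → Fin T) {i : ℕ} (hi : i < m) : ext a i < T := by
  unfold ext
  rw [dif_pos hi]
  exact (a _).2

theorem chain_inj {Q : Finset (ℕ × ℕ)} (h : Chain Q) :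
    ∀ p ∈ Q, ∀ q ∈ Q, (p.1 = q.1 ↔ p.2 = q.2) := by
  intro p hp q hq
  have h1 := h p hp q hq
  have h2 := h q hq p hp
  omega

theorem chain_rank {Q : Finset (ℕ × ℕ)} (h : Chain Q) {p : ℕ × ℕ} (hp : p ∈ Q) :
    ((Q.image Prod.fst).filter (fun x => x < p.1)).card =
      ((Q.image Prod.snd).filter (fun y => y < p.2)).card := by
  classical
  have h1 : (Q.image Prod.fst).filter (fun x => x < p.1) =
      (Q.filter (fun q => q.1 < p.1)).image Prod.fst := by
    rw [Finset.filter_image]
  have h2 : (Q.image Prod.snd).filter (fun y => y < p.2) =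
      (Q.filter (fun q => q.1 < p.1)).image Prod.snd := by
    rw [Finset.filter_image]
    congr 1
    apply Finset.filter_congr
    intro q hq
    exact (h q hq p hp).symm
  rw [h1, h2, Finset.card_image_of_injOn, Finset.card_image_of_injOn]
  · intro x hx y hy hxy
    have hx' := (Finset.mem_filter.mp hx).1
    have hy' := (Finset.mem_filter.mp hy).1
    exact Prod.ext ((chain_inj h x hx' y hy').mpr hxy) hxy
  · intro x hx y hy hxy
    have hx' := (Finset.mem_filter.mp hx).1
    have hy' := (Finset.mem_filter.mp hy).1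
    exact Prod.ext hxy ((chain_inj h x hx' y hy').mp hxy)

theorem rank_inj {S : Finset ℕ} {x y : ℕ} (hx : x ∈ S) (hy : y ∈ S)
    (h : (S.filter (fun z => z < x)).card = (S.filter (fun z => z < y)).card) : x = y := by
  by_contra hne
  wlog hlt : x < y generalizing x y with H
  · exact H hy hx h.symm (Ne.symm hne) (by omega)
  have : (S.filter (fun z => z < x)).card < (S.filter (fun z => z < y)).card := by
    apply Finset.card_lt_card
    rw [Finset.ssubset_iff_of_subset]
    · exact ⟨x, Finset.mem_filter.mpr ⟨hx, hlt⟩, by simp⟩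
    · intro z hz
      obtain ⟨h1, h2⟩ := Finset.mem_filter.mp hz
      exact Finset.mem_filter.mpr ⟨h1, by omega⟩
  omega

theorem chain_eq {Q Q' : Finset (ℕ × ℕ)} (h : Chain Q) (h' : Chain Q')
    (h1 : Q.image Prod.fst = Q'.image Prod.fst) (h2 : Q.image Prod.snd = Q'.image Prod.snd) :
    Q ⊆ Q' := by
  intro p hp
  have hx : p.1 ∈ Q'.image Prod.fst := by
    rw [← h1]
    exact Finset.mem_image_of_mem _ hp
  obtain ⟨q, hq, hqp⟩ := Finset.mem_image.mp hx
  have r1 := chain_rank h hp
  have r2 := chain_rank h' hq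
  rw [h1, h2] at r1
  rw [hqp] at r2
  have hy : p.2 = q.2 := by
    apply rank_inj (S := Q'.image Prod.snd)
    · rw [← h2]
      exact Finset.mem_image_of_mem _ hp
    · exact Finset.mem_image_of_mem _ hq
    · rw [← r1, ← r2]
  have : p = q := Prod.ext hqp.symm hy
  rw [this]
  exact hq

/-- the increasing sets of `k` pairs in the square `m × m` -/
noncomputable def chains (m k : ℕ) : Finset (Finset (ℕ × ℕ)) := by
  classical
  exact ((range m ×ˢ range m).powerset).filter (fun Q => Chain Q ∧ Q.card = k)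

theorem mem_chains {m k : ℕ} {Q : Finset (ℕ × ℕ)} :
    Q ∈ chains m k ↔ (∀ q ∈ Q, q.1 < m ∧ q.2 < m) ∧ Chain Q ∧ Q.card = k := by
  classical
  unfold chains
  rw [Finset.mem_filter, Finset.mem_powerset]
  constructor
  · rintro ⟨h1, h2⟩
    refine ⟨fun q hq => ?_, h2⟩
    have := h1 hq
    rwa [Finset.mem_product, Finset.mem_range, Finset.mem_range] at this
  · rintro ⟨h1, h2⟩
    refine ⟨fun q hq => ?_, h2⟩
    rw [Finset.mem_product, Finset.mem_range, Finset.mem_range]
    exact h1 q hq

theorem chains_card (m k : ℕ) : (chains m k).card ≤ 4 ^ m := by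
  classical
  have h1 : (chains m k).card ≤ ((range m).powerset ×ˢ (range m).powerset).card := by
    apply Finset.card_le_card_of_injOn (fun Q => (Q.image Prod.fst, Q.image Prod.snd))
    · intro Q hQ
      have hQ' := (mem_chains.mp hQ).1
      simp only [Finset.coe_product, Set.mem_prod, Finset.mem_coe, Finset.mem_powerset]
      constructor
      · intro x hx
        obtain ⟨q, hq, rfl⟩ := Finset.mem_image.mp hx
        exact Finset.mem_range.mpr (hQ' q hq).1
      · intro x hx
        obtain ⟨q, hq, rfl⟩ := Finset.mem_image.mp hx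
        exact Finset.mem_range.mpr (hQ' q hq).2
    · intro Q hQ Q' hQ' hQQ
      have c1 := (mem_chains.mp hQ).2.1
      have c2 := (mem_chains.mp hQ').2.1
      simp only [Prod.mk.injEq] at hQQ
      exact Finset.Subset.antisymm (chain_eq c1 c2 hQQ.1 hQQ.2)
        (chain_eq c2 c1 hQQ.1.symm hQQ.2.symm)
  rw [Finset.card_product, Finset.card_powerset, Finset.card_range, ← mul_pow] at h1
  exact h1

/-- `b` has a common subsequence of length `k` with `a` -/
def HasCommon {m T : ℕ} (a b : Fin m → Fin T) (k : ℕ) : Prop :=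
  ∃ Q : Finset (ℕ × ℕ), Chain Q ∧ (∀ q ∈ Q, q.1 < m ∧ q.2 < m ∧ ext a q.1 = ext b q.2) ∧
    Q.card = k

theorem HasCommon.mono {m T : ℕ} {a b : Fin m → Fin T} {k l : ℕ} (h : HasCommon a b l)
    (hkl : k ≤ l) : HasCommon a b k := by
  obtain ⟨Q, h1, h2, h3⟩ := h
  obtain ⟨Q', hQ', hc⟩ := Finset.exists_subset_card_eq (by rw [h3]; exact hkl : k ≤ Q.card)
  exact ⟨Q', fun p hp q hq => h1 p (hQ' hp) q (hQ' hq), fun q hq => h2 q (hQ' hq), hc⟩

/-- COUNTING. -/
theorem count_common {m T k : ℕ} (a : Fin m → Fin T) (F : Finset (Fin m → Fin T))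
    (hF : ∀ b ∈ F, HasCommon a b k) : F.card ≤ 4 ^ m * T ^ (m - k) := by
  classical
  have hsub : F ⊆ (chains m k).biUnion (fun Q =>
      F.filter (fun b => ∀ q ∈ Q, ext a q.1 = ext b q.2)) := by
    intro b hb
    obtain ⟨Q, h1, h2, h3⟩ := hF b hb
    refine Finset.mem_biUnion.mpr ⟨Q, mem_chains.mpr ⟨fun q hq => ⟨(h2 q hq).1, (h2 q hq).2.1⟩,
      h1, h3⟩, ?_⟩
    exact Finset.mem_filter.mpr ⟨hb, fun q hq => (h2 q hq).2.2⟩
  have hone : ∀ Q ∈ chains m k, (F.filter (fun b => ∀ q ∈ Q, ext a q.1 = ext b q.2)).card ≤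
      T ^ (m - k) := by
    intro Q hQ
    obtain ⟨hQ1, hQ2, hQ3⟩ := mem_chains.mp hQ
    have hWc : Fintype.card {i : Fin m // (i : ℕ) ∉ Q.image Prod.snd} = m - k := by
      rw [Fintype.card_subtype_compl, Fintype.card_fin]
      congr 1
      rw [Fintype.card_subtype]
      have h1 : (Finset.filter (fun i : Fin m => (i : ℕ) ∈ Q.image Prod.snd)
          (Finset.univ : Finset (Fin m))).card = (Q.image Prod.snd).card := by
        rw [← Finset.card_map ⟨fun i : Fin m => (i : ℕ), Fin.val_injective⟩]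
        congr 1
        ext y
        simp only [Finset.mem_map, Finset.mem_filter, Finset.mem_univ, true_and,
          Function.Embedding.coeFn_mk]
        constructor
        · rintro ⟨i, hi, rfl⟩
          exact hi
        · intro hy
          obtain ⟨q, hq, rfl⟩ := Finset.mem_image.mp hy
          exact ⟨⟨q.2, (hQ1 q hq).2⟩, hy, rfl⟩
      rw [h1, Finset.card_image_of_injOn, hQ3]
      intro x hx y hy hxy
      exact Prod.ext ((chain_inj hQ2 x hx y hy).mpr hxy) hxy
    have h2 : (F.filter (fun b => ∀ q ∈ Q, ext a q.1 = ext b q.2)).card ≤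
        (Finset.univ : Finset ({i : Fin m // (i : ℕ) ∉ Q.image Prod.snd} → Fin T)).card := by
      apply Finset.card_le_card_of_injOn
        (fun b => fun i : {i : Fin m // (i : ℕ) ∉ Q.image Prod.snd} => b i.1)
      · intro b _
        exact Finset.mem_univ _
      · intro b hb b' hb' hbb
        have e1 := (Finset.mem_filter.mp hb).2
        have e2 := (Finset.mem_filter.mp hb').2
        funext i
        by_cases hi : (i : ℕ) ∈ Q.image Prod.snd
        · obtain ⟨q, hq, hqi⟩ := Finset.mem_image.mp hi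
          have f1 := e1 q hq
          have f2 := e2 q hq
          rw [f1] at f2
          unfold ext at f2
          rw [dif_pos (hQ1 q hq).2, dif_pos (hQ1 q hq).2] at f2
          have : (⟨q.2, (hQ1 q hq).2⟩ : Fin m) = i := Fin.ext hqi
          rw [this] at f2
          exact Fin.ext f2
        · exact congrFun hbb ⟨i, hi⟩
    calc _ ≤ _ := h2
      _ = T ^ (m - k) := by
        rw [Finset.card_univ, Fintype.card_fun, hWc, Fintype.card_fin]
  calc F.card ≤ _ := Finset.card_le_card hsub
    _ ≤ _ := Finset.card_biUnion_le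
    _ ≤ ∑ _Q ∈ chains m k, T ^ (m - k) := Finset.sum_le_sum hone
    _ = (chains m k).card * T ^ (m - k) := by rw [Finset.sum_const, smul_eq_mul]
    _ ≤ 4 ^ m * T ^ (m - k) := Nat.mul_le_mul_right _ (chains_card m k)

end MP8D
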