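import Pool.Agent.Lib.MP_8c24b6_lc.Det.Alg
import Pool.Agent.Lib.MP_8c24b6_lc.Det.K

/-!
MP_8c24b6_lc, lower bound near factor 2: transcripts of streaming algorithms with several passes.
-/

namespace MP8D

open Finset MP8C

theorem scan_append {s : ℕ} (alg : PassAlg s) (j : ℕ) (u v : List Base) :
    ∀ (i : ℕ) (q : Fin (2 ^ s)), alg.scan j i q (u ++ v) =
      alg.scan j (i + u.length) (alg.scan j i q u) v := by
  induction u with
  | nil => intro i q; rfl
  | cons b u ih =>
    intro i q
    show alg.scan j (i + 1) (alg.step j i q b) (u ++ v) = _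
    rw [ih, List.length_cons]
    show _ = alg.scan j (i + (u.length + 1)) (alg.scan j (i + 1) (alg.step j i q b) u) v
    congr 1
    ring

/-- the transcript: the states in the middle and at the end of each pass -/
def transcript {s : ℕ} (alg : PassAlg s) (p : ℕ) (u v : List Base) :
    Fin p → Fin (2 ^ s) × Fin (2 ^ s) :=
  fun j => (alg.scan j 0 (alg.state (u ++ v) j) u, alg.state (u ++ v) (j + 1))

theorem state_eq_of_transcript {s : ℕ} (alg : PassAlg s) {p : ℕ} {u v u' v' : List Base}
    (hlen : u.length = u'.length) (h : transcript alg p u v = transcript alg p u' v') :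
    ∀ j ≤ p, alg.state (u ++ v') j = alg.state (u ++ v) j ∧
      alg.state (u' ++ v') j = alg.state (u ++ v) j := by
  intro j
  induction j with
  | zero => intro _; exact ⟨rfl, rfl⟩
  | succ j ih =>
    intro hj
    obtain ⟨h1, h2⟩ := ih (by omega)
    have h3 := congrFun h ⟨j, by omega⟩
    unfold transcript at h3
    simp only [Prod.mk.injEq] at h3
    obtain ⟨h4, h5⟩ := h3
    refine ⟨?_, h5.symm⟩
    rw [h5]
    show alg.scan j 0 (alg.state (u ++ v') j) (u ++ v') =
      alg.scan j 0 (alg.state (u' ++ v') j) (u' ++ v')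
    rw [scan_append, scan_append, h1, h4, hlen]

theorem run_eq_of_transcript {s : ℕ} (alg : PassAlg s) {p : ℕ} {u v u' v' : List Base}
    (hlen : u.length = u'.length) (h : transcript alg p u v = transcript alg p u' v') :
    alg.run p (u ++ v') = alg.run p (u ++ v) := by
  unfold PassAlg.run
  rw [(state_eq_of_transcript alg hlen h p le_rfl).1]

/-- PIGEONHOLE.  If any two elements of `G` with the same transcript have a common subsequence of
length `k` then `G` is small. -/
theorem pigeon {m T k s p : ℕ} (alg : PassAlg s) (U V : (Fin m → Fin T) → List Base)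
    (G : Finset (Fin m → Fin T))
    (hG : ∀ a ∈ G, ∀ b ∈ G, transcript alg p (U a) (V a) = transcript alg p (U b) (V b) →
      HasCommon a b k) :
    G.card ≤ 2 ^ (2 * s * p) * (4 ^ m * T ^ (m - k)) := by
  classical
  have h1 : G.card ≤ (Finset.univ : Finset (Fin p → Fin (2 ^ s) × Fin (2 ^ s))).card *
      (4 ^ m * T ^ (m - k)) := by
    rw [mul_comm]
    apply Finset.card_le_mul_card_image_of_maps_to
      (f := fun a => transcript alg p (U a) (V a)) (fun a _ => Finset.mem_univ _)
    intro τ _
    by_cases hne : (G.filter (fun a => transcript alg p (U a) (V a) = τ)).Nonempty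
    · obtain ⟨a, ha⟩ := hne
      obtain ⟨ha1, ha2⟩ := Finset.mem_filter.mp ha
      apply count_common a
      intro b hb
      obtain ⟨hb1, hb2⟩ := Finset.mem_filter.mp hb
      exact hG a ha1 b hb1 (by rw [ha2, hb2])
    · rw [Finset.not_nonempty_iff_eq_empty] at hne
      rw [hne]
      simp
  have h2 : (Finset.univ : Finset (Fin p → Fin (2 ^ s) × Fin (2 ^ s))).card =
      2 ^ (2 * s * p) := by
    rw [Finset.card_univ, Fintype.card_fun, Fintype.card_prod, Fintype.card_fin, Fintype.card_fin,
      ← pow_add, ← pow_mul]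
    congr 1
    ring
  rw [h2] at h1
  exact h1

end MP8D
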