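import Pool.Agent.Lib.MP_8c24b6_lc.Det.J
import Pool.Agent.Lib.MP_8c24b6_lc.Det.L

/-!
MP_8c24b6_lc, lower bound near factor 2: averaging, sign changes and the deterministic core.
-/

namespace MP8D

open Finset MP8C MeasureTheory
open scoped ENNReal

theorem exists_good {Ω : Type} [MeasurableSpace Ω] (μ : Measure Ω) [IsProbabilityMeasure μ]
    {ι : Type} [Fintype ι] (E : ι → Set Ω) (hE : ∀ i, MeasurableSet (E i)) {θ : ℝ} (hθ : 0 < θ)
    (h : ∀ i, ENNReal.ofReal θ ≤ μ (E i)) (N : Set Ω) (hN : μ N = 0) :
    ∃ ω, ω ∉ N ∧ ∃ G : Finset ι, (∀ i ∈ G, ω ∈ E i) ∧ θ * Fintype.card ι ≤ G.card := by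
  classical
  set f : Ω → ℝ≥0∞ := fun ω => ∑ i : ι, (E i).indicator (fun _ => (1 : ℝ≥0∞)) ω with hf
  have hint : ∫⁻ ω, f ω ∂μ = ∑ i : ι, μ (E i) := by
    simp only [hf]
    rw [lintegral_finsetSum _ (fun i _ => (measurable_const.indicator (hE i)))]
    apply Finset.sum_congr rfl
    intro i _
    rw [lintegral_indicator (hE i)]
    simp
  have hfin : ∫⁻ ω, f ω ∂μ ≠ ∞ := by
    rw [hint]
    exact (ENNReal.sum_lt_top.mpr (fun i _ => measure_lt_top μ _)).ne
  obtain ⟨ω, hω, hle⟩ := exists_notMem_null_lintegral_le hfin hN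
  refine ⟨ω, hω, Finset.univ.filter (fun i => ω ∈ E i), fun i hi => (Finset.mem_filter.mp hi).2, ?_⟩
  have h1 : f ω = ((Finset.univ.filter (fun i => ω ∈ E i)).card : ℝ≥0∞) := by
    simp only [hf, Set.indicator_apply]
    rw [Finset.sum_boole]
  rw [h1, hint] at hle
  have h2 : (Fintype.card ι : ℝ≥0∞) * ENNReal.ofReal θ ≤ ∑ i : ι, μ (E i) := by
    have : ∑ _i : ι, ENNReal.ofReal θ ≤ ∑ i : ι, μ (E i) := Finset.sum_le_sum (fun i _ => h i)
    simpa using this
  have h3 := h2.trans hle
  have h4 : ENNReal.ofReal (θ * Fintype.card ι) ≤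
      ENNReal.ofReal ((Finset.univ.filter (fun i => ω ∈ E i)).card : ℝ) := by
    rw [ENNReal.ofReal_mul hθ.le, ENNReal.ofReal_natCast, ENNReal.ofReal_natCast, mul_comm]
    exact h3
  exact (ENNReal.ofReal_le_ofReal_iff (by positivity)).mp h4

theorem get_tail {u v : ℕ → Base} {N r n : ℕ} (h : 2 * N ≤ n) (h' : n < 2 * N + r) :
    (left u N ++ right v N r)[n]? = some Base.A := by
  rw [List.getElem?_append_right (by rw [left_length]; omega), left_length]
  have h1 : n - N < N + r := by omega
  have h2 : ¬ (n - N < N) := by omega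
  simp [right, h1, h2]

theorem div_step {g c i : ℕ} (h : ¬ g ∣ i + 1) : i / (g * c) = (i + 1) / (g * c) := by
  rw [Nat.succ_div, if_neg]
  · rfl
  · intro h1
    exact h ((Dvd.intro c rfl).trans h1)

theorem word_step {K L₀ g : ℕ} {d : ℕ → ℕ} {a : ℕ → ℕ} {i : ℕ} (h : ¬ g ∣ i + 1) :
    word K (g * L₀) (fun t => g * d t) a i = word K (g * L₀) (fun t => g * d t) a (i + 1) := by
  unfold word zig
  rw [div_step (c := L₀) h]
  have h1 : ∀ t, i / (g * d t) = (i + 1) / (g * d t) := fun t => div_step h
  have h2 : ∀ t, i / (2 * K * (g * d t)) = (i + 1) / (2 * K * (g * d t)) := by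
    intro t
    have e : 2 * K * (g * d t) = g * (2 * K * d t) := by ring
    rw [e]
    exact div_step h
  rw [h1, h2]

/-- the strings change their sign only at multiples of `g` -/
theorem alternations_le {K L₀ g m r : ℕ} (hg : 0 < g) {d : ℕ → ℕ} {a b : ℕ → ℕ} :
    alternations (left (word K (g * L₀) (fun t => g * d t) a) (m * (g * L₀)) ++
      right (word K (g * L₀) (fun t => g * d t) b) (m * (g * L₀)) r) ≤ 2 * m * L₀ := by
  classical
  set u := word K (g * L₀) (fun t => g * d t) a with hu
  set v := word K (g * L₀) (fun t => g * d t) b with hv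
  set N := m * (g * L₀) with hN
  have hgN : g ∣ N := ⟨m * L₀, by rw [hN]; ring⟩
  have hsub : ((Finset.range (left u N ++ right v N r).length).filter (fun i =>
      i + 1 < (left u N ++ right v N r).length ∧
      ((left u N ++ right v N r)[i]?).map positive ≠
        ((left u N ++ right v N r)[i + 1]?).map positive)) ⊆
      (range (2 * m * L₀)).image (fun j => (j + 1) * g - 1) := by
    intro i hi
    obtain ⟨-, hi1, hi2⟩ := Finset.mem_filter.mp hi
    rw [List.length_append, left_length, right_length] at hi1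
    have h1 : i + 1 ≤ 2 * N := by
      by_contra hcon
      apply hi2
      rw [get_tail (by omega) (by omega), get_tail (by omega) (by omega)]
    have h2 : g ∣ i + 1 := by
      by_contra hcon
      apply hi2
      by_cases hc1 : i + 1 < N
      · rw [get_left (by omega), get_left hc1, hu, word_step hcon]
      · by_cases hc2 : i + 1 = N
        · exact absurd (hc2 ▸ hgN) hcon
        · by_cases hc3 : i + 1 = 2 * N
          · exact absurd (hc3 ▸ (hgN.mul_left 2)) hcon
          · rw [get_right (by omega) (by omega), get_right (by omega) (by omega)]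
            have e1 : 2 * N - 1 - i = (2 * N - 1 - (i + 1)) + 1 := by omega
            have hcon' : ¬ g ∣ (2 * N - 1 - (i + 1)) + 1 := by
              intro h3
              apply hcon
              have h4 : g ∣ 2 * N - (i + 1) := by
                have e2 : 2 * N - (i + 1) = (2 * N - 1 - (i + 1)) + 1 := by omega
                rw [e2]
                exact h3
              have h5 : i + 1 = 2 * N - (2 * N - (i + 1)) := by omega
              rw [h5]
              exact Nat.dvd_sub (hgN.mul_left 2) h4
            rw [e1, hv, ← word_step hcon']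
    obtain ⟨q, hq⟩ := h2
    have hq0 : 0 < q := by
      rcases Nat.eq_zero_or_pos q with h | h
      · subst h
        omega
      · exact h
    rw [Finset.mem_image]
    refine ⟨q - 1, ?_, ?_⟩
    · rw [Finset.mem_range]
      have h3 : g * q ≤ g * (2 * m * L₀) := by
        rw [← hq]
        calc i + 1 ≤ 2 * N := h1
          _ = g * (2 * m * L₀) := by rw [hN]; ring
      have h4 := Nat.le_of_mul_le_mul_left h3 hg
      omega
    · have : q - 1 + 1 = q := by omega
      simp only [this]
      rw [mul_comm, ← hq]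
      omega
  unfold alternations
  calc _ ≤ _ := Finset.card_le_card hsub
    _ ≤ (range (2 * m * L₀)).card := Finset.card_image_le
    _ = 2 * m * L₀ := by simp

end MP8D
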