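import Pool.Agent.Lib.MP_8c24b6_lc.Det.M

/-!
MP_8c24b6_lc, lower bound near factor 2: the final count.
-/

namespace MP8D

open Finset MP8C MeasureTheory
open scoped ENNReal

/-- the base of the run lengths -/
def dd (K : ℕ) : ℕ := 4 * K * (4 * K + 9)

/-- the number of letters -/
def tt (K : ℕ) : ℕ := 2 ^ (4 * K)

/-- the block length (for `g = 1`) -/
def ll (K : ℕ) : ℕ := dd K ^ tt K

/-- the string of the pair `(a, b)` -/
def str (K g m r : ℕ) (a b : Fin m → Fin (tt K)) : List Base :=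
  left (word K (g * ll K) (fun t => g * dd K ^ t) (ext a)) (m * (g * ll K)) ++
    right (word K (g * ll K) (fun t => g * dd K ^ t) (ext b)) (m * (g * ll K)) r

theorem dd_pos {K : ℕ} (hK : 0 < K) : 0 < dd K := by
  unfold dd
  positivity

theorem le_opt_diag (K g m r : ℕ) (a : Fin m → Fin (tt K)) :
    m * (g * ll K) ≤ opt (str K g m r a a) := by
  classical
  set N := m * (g * ll K) with hN
  have h := le_opt_of_cross (u := word K (g * ll K) (fun t => g * dd K ^ t) (ext a))
    (v := word K (g * ll K) (fun t => g * dd K ^ t) (ext a)) (N := N) (r := r)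
    (P := (range N).image (fun n => (n, n))) (by
      constructor
      · intro p hp q hq
        obtain ⟨x, hx, rfl⟩ := Finset.mem_image.mp hp
        obtain ⟨y, hy, rfl⟩ := Finset.mem_image.mp hq
        exact Iff.rfl
      · intro p hp
        obtain ⟨x, hx, rfl⟩ := Finset.mem_image.mp hp
        rfl) (by
      intro p hp
      obtain ⟨x, hx, rfl⟩ := Finset.mem_image.mp hp
      rw [Finset.mem_range] at hx
      exact ⟨hx, hx⟩)
  rw [Finset.card_image_of_injective _ (fun x y hxy => (Prod.mk.inj hxy).1), Finset.card_range] at h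
  exact h

theorem opt_str_le {K g m r : ℕ} (hK : 0 < K) (hg : 0 < g) (a b : Fin m → Fin (tt K)) :
    ∃ Q : Finset (ℕ × ℕ), Chain Q ∧ (∀ q ∈ Q, q.1 < m ∧ q.2 < m ∧ ext a q.1 = ext b q.2) ∧
      (opt (str K g m r a b) : ℝ) ≤ (m * (g * ll K)) / 2 + 2 * (m * (g * ll K)) / K +
        2 * (g * ll K) * Q.card + r := by
  have hD : 0 < dd K := dd_pos hK
  have hKr : (1 : ℝ) ≤ K := by exact_mod_cast hK
  have hT : 0 < tt K := by unfold tt; positivity
  have hLpos : 0 < g * ll K := by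
    have : 0 < ll K := by unfold ll; positivity
    positivity
  have hmain := opt_word_le (K := K) (L := g * ll K) (m := m) (T := tt K)
    (Δ := g * dd K ^ (tt K - 1)) (r := r) hK hLpos (δ := fun t => g * dd K ^ t)
    (fun t _ => by positivity) (by
      intro s t hst _
      have h1 : dd K ^ s * dd K ≤ dd K ^ t := by
        rw [← pow_succ]
        exact Nat.pow_le_pow_right hD hst
      have h2 : 2 * K * (2 * K + 3) ≤ dd K := by
        unfold dd
        nlinarith
      calc g * dd K ^ s * (2 * K * (2 * K + 3)) ≤ g * dd K ^ s * dd K := Nat.mul_le_mul_left _ h2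
        _ = g * (dd K ^ s * dd K) := by ring
        _ ≤ g * dd K ^ t := Nat.mul_le_mul_left _ h1) (by
      intro t ht
      exact Nat.mul_le_mul_left _ (Nat.pow_le_pow_right hD (by omega)))
    (a := ext a) (b := ext b) (fun i hi => ext_lt a hi) (fun i hi => ext_lt b hi)
  obtain ⟨Q, hQ1, hQ2, hQ3⟩ := hmain
  refine ⟨Q, hQ1, hQ2, ?_⟩
  have hDΔ : (g * ll K : ℕ) = dd K * (g * dd K ^ (tt K - 1)) := by
    unfold ll
    have : dd K ^ tt K = dd K ^ (tt K - 1) * dd K := by
      rw [← pow_succ]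
      congr 1
      omega
    rw [this]
    ring
  set Δ : ℝ := ((g * dd K ^ (tt K - 1) : ℕ) : ℝ) with hΔ
  have hΔ0 : 0 ≤ Δ := by positivity
  set L : ℝ := (g : ℝ) * (ll K : ℝ) with hL
  have hLΔ : L = 4 * K * (4 * K + 9) * Δ := by
    have : ((g * ll K : ℕ) : ℝ) = ((dd K * (g * dd K ^ (tt K - 1)) : ℕ) : ℝ) := by
      exact_mod_cast hDΔ
    rw [hL, hΔ]
    rw [Nat.cast_mul] at this
    rw [this, Nat.cast_mul]
    congr 1
    unfold dd
    push_cast
    ring
  have hm0 : (0 : ℝ) ≤ m := by positivity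
  have h1 : (m : ℝ) * ((4 * K + 9) * Δ) = m * L / (4 * K) := by
    rw [hLΔ]
    field_simp
  have h2 : (m : ℝ) * Δ ≤ m * L / (4 * K) := by
    rw [← h1]
    apply mul_le_mul_of_nonneg_left _ hm0
    nlinarith
  have h3 : ((m * (g * ll K) : ℕ) : ℝ) = m * L := by push_cast; ring
  have h4 : ((g * ll K : ℕ) : ℝ) = L := by push_cast; ring
  rw [h3, h4] at hQ3
  have h5 : (m : ℝ) * (L + Δ) / 2 = m * L / 2 + m * Δ / 2 := by ring
  rw [h5, h1] at hQ3
  have h6 : (m : ℝ) * L / K + m * L / (4 * K) + m * L / (4 * K) / 2 ≤ 2 * (m * L) / K := by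
    have hmL : 0 ≤ (m : ℝ) * L := by positivity
    have e : (m : ℝ) * L / K + m * L / (4 * K) + m * L / (4 * K) / 2 = (11 / 8) * (m * L / K) := by
      field_simp
      ring
    have e2 : 2 * ((m : ℝ) * L) / K = 2 * (m * L / K) := by ring
    rw [e, e2]
    have : 0 ≤ (m : ℝ) * L / K := by positivity
    linarith
  have h7 : (opt (str K g m r a b) : ℝ) ≤ m * L / 2 + m * Δ / 2 + m * L / K + m * L / (4 * K) +
      2 * L * Q.card + r := hQ3
  linarith

/-- an output that is good for `(a, a)` and not too large for `(a, b)` forces a long common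
subsequence -/
theorem det_core {α : ℝ} (h1 : 1 ≤ α) (h2 : α < 2) {K g m r : ℕ} (hK : 20 / (2 - α) ≤ K)
    (hK0 : 0 < K) (hg : 0 < g) (hm : 2 * K ≤ m) (hr : r ≤ 2 * (g * ll K))
    (a b : Fin m → Fin (tt K)) {X : ℝ} (hX1 : (opt (str K g m r a a) : ℝ) ≤ α * X)
    (hX2 : X ≤ opt (str K g m r a b)) : HasCommon a b (m / K + 1) := by
  obtain ⟨Q, hQ1, hQ2, hQ3⟩ := opt_str_le (r := r) hK0 hg a b
  have hcom : HasCommon a b Q.card := ⟨Q, hQ1, hQ2, rfl⟩
  by_contra hno
  have hQ : Q.card ≤ m / K := by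
    by_contra hcon
    exact hno (hcom.mono (by omega))
  have hKr : (1 : ℝ) ≤ K := by exact_mod_cast hK0
  have hmr : (2 : ℝ) * K ≤ m := by exact_mod_cast hm
  have hD : 0 < dd K := dd_pos hK0
  have hLn : 0 < g * ll K := by
    have : 0 < ll K := by unfold ll; positivity
    positivity
  set L : ℝ := (g : ℝ) * (ll K : ℝ) with hL
  have hL0 : 0 < L := by
    have : (0 : ℝ) < ((g * ll K : ℕ) : ℝ) := by exact_mod_cast hLn
    rw [hL]
    exact_mod_cast this
  have hdiag : (m : ℝ) * L ≤ opt (str K g m r a a) := by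
    rw [hL]
    exact_mod_cast le_opt_diag K g m r a
  have hQr : (Q.card : ℝ) ≤ m / K := by
    have h3 : (Q.card : ℝ) ≤ ((m / K : ℕ) : ℝ) := by exact_mod_cast hQ
    exact h3.trans Nat.cast_div_le
  have hrr : (r : ℝ) ≤ 2 * L := by
    rw [hL]
    exact_mod_cast hr
  have h3 : 2 * L * (Q.card : ℝ) ≤ 2 * (m * L) / K := by
    have : 2 * L * (Q.card : ℝ) ≤ 2 * L * (m / K) := mul_le_mul_of_nonneg_left hQr (by positivity)
    calc _ ≤ _ := this
      _ = 2 * (m * L) / K := by ring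
  have h4 : 2 * L ≤ (m * L) / K := by
    rw [le_div_iff₀ (by linarith)]
    nlinarith
  have h5 : (opt (str K g m r a b) : ℝ) ≤ m * L * (1 / 2 + 5 / K) := by
    have e : (m : ℝ) * L * (1 / 2 + 5 / K) =
        m * L / 2 + 2 * (m * L) / K + 2 * (m * L) / K + (m * L) / K := by
      field_simp
      ring
    rw [e]
    linarith
  have h6 : (m : ℝ) * L ≤ α * (m * L * (1 / 2 + 5 / K)) := by
    have : α * X ≤ α * (m * L * (1 / 2 + 5 / K)) :=
      mul_le_mul_of_nonneg_left (hX2.trans h5) (by linarith)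
    linarith
  have hmL : 0 < (m : ℝ) * L := by
    have : (0 : ℝ) < m := by linarith
    positivity
  have h7 : 1 ≤ α * (1 / 2 + 5 / K) := by
    have e : α * (m * L * (1 / 2 + 5 / K)) = (m * L) * (α * (1 / 2 + 5 / K)) := by ring
    rw [e] at h6
    exact le_of_mul_le_mul_left (by linarith) hmL
  have h8 : 20 ≤ (K : ℝ) * (2 - α) := by
    rw [div_le_iff₀ (by linarith)] at hK
    exact hK
  have h9 : (K : ℝ) ≤ α * (K / 2 + 5) := by
    have e : α * ((K : ℝ) / 2 + 5) = K * (α * (1 / 2 + 5 / K)) := by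
      field_simp
    rw [e]
    nlinarith
  nlinarith

/-- the main count -/
theorem main_count {α : ℝ} (h1 : 1 ≤ α) (h2 : α < 2) {K g m r : ℕ} (hK : 20 / (2 - α) ≤ K)
    (hK0 : 2 ≤ K) (hg : 0 < g) (hm : 2 * K ≤ m) (hr : r ≤ 2 * (g * ll K)) {p s : ℕ}
    (alg : PassAlg s) (G : Finset (Fin m → Fin (tt K)))
    (hG : ∀ a ∈ G, (opt (str K g m r a a) : ℝ) ≤ α * alg.run p (str K g m r a a))
    (hover : ∀ a b, alg.run p (str K g m r a b) ≤ opt (str K g m r a b)) {θ : ℝ} (hθ : 0 < θ)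
    (hcard : θ * (tt K : ℝ) ^ m ≤ G.card) : θ * 4 ^ m ≤ 4 ^ (s * p) := by
  have hpig := pigeon (p := p) (k := m / K + 1) alg
    (fun a => left (word K (g * ll K) (fun t => g * dd K ^ t) (ext a)) (m * (g * ll K)))
    (fun b => right (word K (g * ll K) (fun t => g * dd K ^ t) (ext b)) (m * (g * ll K)) r) G (by
      intro a ha b hb hab
      have h3 := run_eq_of_transcript alg (by rw [left_length, left_length]) hab
      apply det_core h1 h2 hK (by omega) hg hm hr a b (hG a ha)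
      have h4 := hover a b
      have h5 : alg.run p (str K g m r a b) = alg.run p (str K g m r a a) := h3
      rw [← h5]
      exact h4)
  have hk : m / K + 1 ≤ m := by
    have h3 : m / K ≤ m / 2 := Nat.div_le_div_left hK0 (by norm_num)
    omega
  have hT : tt K ^ m = tt K ^ (m - (m / K + 1)) * tt K ^ (m / K + 1) := by
    rw [← pow_add]
    congr 1
    omega
  have hTk : 4 ^ m * 4 ^ m ≤ tt K ^ (m / K + 1) := by
    unfold tt
    have e : (4 : ℕ) ^ m * 4 ^ m = 2 ^ (4 * m) := by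
      rw [← mul_pow, pow_mul]
      norm_num
    rw [e, ← pow_mul]
    apply Nat.pow_le_pow_right (by norm_num)
    have h3 : m < K * (m / K + 1) := by
      have := Nat.lt_mul_div_succ m (by omega : 0 < K)
      simpa using this
    calc 4 * m ≤ 4 * (K * (m / K + 1)) := Nat.mul_le_mul_left _ h3.le
      _ = 4 * K * (m / K + 1) := by ring
  have hTpos : (0 : ℝ) < (tt K : ℝ) ^ (m - (m / K + 1)) := by
    have : (0 : ℝ) < tt K := by unfold tt; positivity
    positivity
  have hTr : (tt K : ℝ) ^ m = (tt K : ℝ) ^ (m - (m / K + 1)) * (tt K : ℝ) ^ (m / K + 1) := by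
    exact_mod_cast hT
  have hTkr : (4 : ℝ) ^ m * 4 ^ m ≤ (tt K : ℝ) ^ (m / K + 1) := by exact_mod_cast hTk
  have hpigr : (G.card : ℝ) ≤ 2 ^ (2 * s * p) * (4 ^ m * (tt K : ℝ) ^ (m - (m / K + 1))) := by
    exact_mod_cast hpig
  have h4s : (2 : ℝ) ^ (2 * s * p) = 4 ^ (s * p) := by
    rw [mul_assoc, pow_mul]
    norm_num
  rw [h4s] at hpigr
  have h4m : (0 : ℝ) < 4 ^ m := by positivity
  have h5 : ((tt K : ℝ) ^ (m - (m / K + 1)) * 4 ^ m) * (θ * 4 ^ m) ≤
      ((tt K : ℝ) ^ (m - (m / K + 1)) * 4 ^ m) * 4 ^ (s * p) := by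
    calc ((tt K : ℝ) ^ (m - (m / K + 1)) * 4 ^ m) * (θ * 4 ^ m)
        = θ * ((tt K : ℝ) ^ (m - (m / K + 1)) * (4 ^ m * 4 ^ m)) := by ring
      _ ≤ θ * ((tt K : ℝ) ^ (m - (m / K + 1)) * (tt K : ℝ) ^ (m / K + 1)) :=
          mul_le_mul_of_nonneg_left (mul_le_mul_of_nonneg_left hTkr hTpos.le) hθ.le
      _ = θ * (tt K : ℝ) ^ m := by rw [← hTr]
      _ ≤ _ := hcard
      _ ≤ _ := hpigr
      _ = _ := by ring
  exact le_of_mul_le_mul_left h5 (by positivity)

/-- the choice of the parameters -/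
theorem params {K n k : ℕ} (hK : 0 < K) (hk : 8 * K * ll K ≤ k) (hkn : k ≤ n) :
    ∃ g m r : ℕ, 0 < g ∧ 2 * K ≤ m ∧ r ≤ 2 * (g * ll K) ∧ 2 * (m * (g * ll K)) + r = n ∧
      2 * m * ll K ≤ k ∧ k ≤ 8 * ll K * m := by
  have hl : 0 < ll K := by
    have := dd_pos hK
    unfold ll
    positivity
  have hk0 : 0 < k := lt_of_lt_of_le (by positivity) hk
  obtain ⟨g, hg⟩ : ∃ g, g = n / k + 1 := ⟨_, rfl⟩
  have hg0 : 0 < g := by
    rw [hg]
    exact Nat.succ_pos _
  have hgk1 : n < g * k := by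
    rw [hg, mul_comm]
    exact Nat.lt_mul_div_succ n hk0
  have hgk2 : g * k ≤ 2 * n := by
    have h1 : n / k * k ≤ n := Nat.div_mul_le_self n k
    calc g * k = n / k * k + k := by rw [hg]; ring
      _ ≤ 2 * n := by omega
  set L := g * ll K with hL
  have hL0 : 0 < L := by positivity
  have hmod := Nat.div_add_mod n (2 * L)
  have hlt := Nat.mod_lt n (by positivity : 0 < 2 * L)
  set m := n / (2 * L) with hm
  have hm2 : 2 * K ≤ m := by
    rw [hm, Nat.le_div_iff_mul_le (by positivity)]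
    have h1 : (2 * K * (2 * L)) * k ≤ n * k := by
      calc (2 * K * (2 * L)) * k = 4 * K * ll K * (g * k) := by rw [hL]; ring
        _ ≤ 4 * K * ll K * (2 * n) := Nat.mul_le_mul_left _ hgk2
        _ = (8 * K * ll K) * n := by ring
        _ ≤ k * n := Nat.mul_le_mul_right _ hk
        _ = n * k := by ring
    exact Nat.le_of_mul_le_mul_right h1 hk0
  refine ⟨g, m, n % (2 * L), hg0, hm2, hlt.le, ?_, ?_, ?_⟩
  · calc 2 * (m * L) + n % (2 * L) = 2 * L * m + n % (2 * L) := by ring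
      _ = n := hmod
  · have h1 : g * (2 * m * ll K) ≤ g * k := by
      calc g * (2 * m * ll K) = 2 * L * m := by rw [hL]; ring
        _ ≤ n := by omega
        _ ≤ g * k := hgk1.le
    exact Nat.le_of_mul_le_mul_left h1 hg0
  · have hn0 : 0 < n := by omega
    have h1 : n ≤ 4 * L * m := by
      have h2 : n < 2 * L * m + 2 * L := by omega
      have h3 : 2 * L ≤ 2 * L * m := Nat.le_mul_of_pos_right _ (by omega)
      have h4 : 4 * L * m = 2 * L * m + 2 * L * m := by ring
      omega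
    have h2 : n * k ≤ n * (8 * ll K * m) := by
      calc n * k ≤ (4 * L * m) * k := Nat.mul_le_mul_right _ h1
        _ = 4 * ll K * m * (g * k) := by rw [hL]; ring
        _ ≤ 4 * ll K * m * (2 * n) := Nat.mul_le_mul_left _ hgk2
        _ = n * (8 * ll K * m) := by ring
    exact Nat.le_of_mul_le_mul_left h2 hn0

theorem str_length (K g m r : ℕ) (a b : Fin m → Fin (tt K)) :
    (str K g m r a b).length = 2 * (m * (g * ll K)) + r := by
  unfold str
  rw [List.length_append, left_length, right_length]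
  ring

end MP8D
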