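import Mathlib

/-!
MP_8c24b6_lc, lower bound near factor 2: two large sets of sequences contain two sequences with small
Hamming distance.
-/

namespace MP8D

open Finset

/-- number of different coordinates -/
def dif {Ω : Type} [DecidableEq Ω] {m : ℕ} (x y : Fin m → Ω) : ℕ := ∑ i, if x i ≠ y i then 1 else 0

theorem dif_cons {Ω : Type} [DecidableEq Ω] {m : ℕ} (a b : Ω) (x y : Fin m → Ω) :
    dif (Fin.cons a x : Fin (m + 1) → Ω) (Fin.cons b y : Fin (m + 1) → Ω) =
      (if a ≠ b then 1 else 0) + dif x y := by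
  unfold dif
  rw [Fin.sum_univ_succ]
  simp

theorem scalar_bound {E z u : ℝ} (h1 : z * u ≤ 1) (h2 : z ≤ E) (hu0 : 0 ≤ u)
    (hu1 : u ≤ 1) : z ≤ 1 + E - E * u := by
  by_cases h : E * u ≤ 1
  · linarith
  · push Not at h
    have hu : 0 < u := by
      rcases hu0.eq_or_lt with h' | h'
      · rw [← h'] at h
        linarith
      · exact h'
    have h3 : z ≤ 1 / u := by
      rw [le_div_iff₀ hu]
      exact h1
    have h4 : 1 / u ≤ 1 + E - E * u := by
      rw [div_le_iff₀ hu]
      nlinarith
    linarith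

theorem arith_end {W M T E U S : ℝ} (hW : 0 < W) (hM : 0 < M) (hE : 0 < E)
    (h : S ≤ W / M * (T * (1 + E) - E * U)) (hU : 0 ≤ U) :
    S * (U * M) ≤ W * (T ^ 2 * ((1 + E) ^ 2 / (4 * E))) := by
  calc S * (U * M) ≤ (W / M * (T * (1 + E) - E * U)) * (U * M) :=
        mul_le_mul_of_nonneg_right h (mul_nonneg hU hM.le)
    _ = (W / M * M) * (U * (T * (1 + E) - E * U)) := by ring
    _ = W * (U * (T * (1 + E) - E * U)) := by
        rw [div_mul_cancel₀ _ hM.ne']
    _ ≤ W * (T ^ 2 * ((1 + E) ^ 2 / (4 * E))) := by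
        apply mul_le_mul_of_nonneg_left _ hW.le
        have e : T ^ 2 * ((1 + E) ^ 2 / (4 * E)) = (T * (1 + E)) ^ 2 / (4 * E) := by
          ring
        rw [e, le_div_iff₀ (by positivity)]
        nlinarith [sq_nonneg (T * (1 + E) - 2 * E * U)]

theorem talagrand {Ω : Type} [Fintype Ω] [DecidableEq Ω] [Nonempty Ω] {E : ℝ} (hE : 1 ≤ E) :
    ∀ (m : ℕ) (Y : Finset (Fin m → Ω)) (f : (Fin m → Ω) → ℝ), (∀ x, 0 ≤ f x) →
      (∀ x, ∀ y ∈ Y, f x ≤ E ^ dif x y) →
      (∑ x, f x) * Y.card ≤ ((Fintype.card Ω : ℝ) ^ 2 * ((1 + E) ^ 2 / (4 * E))) ^ m := by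
  classical
  have hE0 : 0 < E := by linarith
  have hT : (0 : ℝ) < Fintype.card Ω := by exact_mod_cast Fintype.card_pos
  intro m
  induction m with
  | zero =>
    intro Y f hf0 hf
    rw [pow_zero]
    rcases Y.eq_empty_or_nonempty with h | ⟨y, hy⟩
    · rw [h]
      simp
    · have h1 : ∑ x, f x = f y := by
        rw [Fintype.sum_eq_single y]
        intro x hx
        exact absurd (Subsingleton.elim x y) hx
      have h2 : f y ≤ 1 := by
        have := hf y y hy
        simpa [dif] using this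
      have h3 : (Y.card : ℝ) ≤ 1 := by
        have : Y.card ≤ 1 := Finset.card_le_one_of_subsingleton Y
        exact_mod_cast this
      rw [h1]
      calc f y * Y.card ≤ 1 * 1 := mul_le_mul h2 h3 (by positivity) (by norm_num)
        _ = 1 := by ring
  | succ m ih =>
    intro Y f hf0 hf
    set W : ℝ := ((Fintype.card Ω : ℝ) ^ 2 * ((1 + E) ^ 2 / (4 * E))) ^ m with hW
    have hWpos : 0 < W := by positivity
    set Z : Ω → Finset (Fin m → Ω) := fun ω =>
      Finset.univ.filter (fun y => (Fin.cons ω y : Fin (m + 1) → Ω) ∈ Y) with hZ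
    set B : Finset (Fin m → Ω) := Finset.univ.biUnion Z with hB
    set S : Ω → ℝ := fun ω => ∑ x : Fin m → Ω, f (Fin.cons ω x) with hS
    have hsum : ∑ x, f x = ∑ ω, S ω := by
      rw [← (Fin.consEquiv (fun _ => Ω)).sum_comp, Fintype.sum_prod_type]
      rfl
    have hYc : (Y.card : ℝ) = ∑ ω, ((Z ω).card : ℝ) := by
      have h1 : (Y.card : ℝ) = ∑ x, if x ∈ Y then (1 : ℝ) else 0 := by
        simp
      rw [h1, ← (Fin.consEquiv (fun _ => Ω)).sum_comp, Fintype.sum_prod_type]
      apply Finset.sum_congr rfl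
      intro ω _
      simp only [hZ]
      rw [Finset.card_filter]
      push_cast
      rfl
    by_cases hBe : B.card = 0
    · have : Y.card = 0 := by
        have h0 : (Y.card : ℝ) = 0 := by
          rw [hYc]
          apply Finset.sum_eq_zero
          intro ω _
          have h1 : Z ω ⊆ B := Finset.subset_biUnion_of_mem Z (Finset.mem_univ ω)
          have h2 := Finset.card_le_card h1
          have h3 : (Z ω).card = 0 := by omega
          rw [h3]
          simp
        exact_mod_cast h0
      rw [this]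
      simp only [Nat.cast_zero, mul_zero]
      positivity
    · have hM : (0 : ℝ) < B.card := by
        have : 0 < B.card := Nat.pos_of_ne_zero hBe
        exact_mod_cast this
      set M : ℝ := (B.card : ℝ) with hMdef
      have hS0 : ∀ ω, 0 ≤ S ω := fun ω => Finset.sum_nonneg (fun x _ => hf0 _)
      have h1 : ∀ ω, S ω * (Z ω).card ≤ W := by
        intro ω
        apply ih (Z ω) (fun x => f (Fin.cons ω x)) (fun x => hf0 _)
        intro x y hy
        have hy' : (Fin.cons ω y : Fin (m + 1) → Ω) ∈ Y := by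
          simpa [hZ] using hy
        have := hf (Fin.cons ω x) _ hy'
        rw [dif_cons] at this
        simpa using this
      have h2 : ∀ ω, S ω * M ≤ E * W := by
        intro ω
        have h3 := ih B (fun x => f (Fin.cons ω x) / E) (fun x => div_nonneg (hf0 _) hE0.le) (by
          intro x y hy
          obtain ⟨ω', -, hy'⟩ := Finset.mem_biUnion.mp hy
          have hy'' : (Fin.cons ω' y : Fin (m + 1) → Ω) ∈ Y := by
            simpa [hZ] using hy'
          have h4 := hf (Fin.cons ω x) _ hy''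
          rw [dif_cons] at h4
          rw [div_le_iff₀ hE0]
          refine h4.trans ?_
          rw [← pow_succ]
          apply pow_le_pow_right₀ hE
          split_ifs <;> omega)
        rw [← Finset.sum_div] at h3
        have e : (∑ x : Fin m → Ω, f (Fin.cons ω x)) = S ω := rfl
        rw [e] at h3
        have e2 : S ω / E * M = S ω * M / E := by ring
        rw [e2, div_le_iff₀ hE0] at h3
        linarith
      have h3 : ∀ ω, S ω ≤ W / M * (1 + E - E * ((Z ω).card / M)) := by
        intro ω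
        have h4 : S ω * M / W ≤ 1 + E - E * ((Z ω).card / M) := by
          apply scalar_bound
          · have e : S ω * M / W * ((Z ω).card / M) = S ω * (Z ω).card / W := by
              field_simp
            rw [e, div_le_one hWpos]
            exact h1 ω
          · rw [div_le_iff₀ hWpos]
            exact h2 ω
          · positivity
          · rw [div_le_one hM]
            have h5 : Z ω ⊆ B := Finset.subset_biUnion_of_mem Z (Finset.mem_univ ω)
            rw [hMdef]
            exact_mod_cast Finset.card_le_card h5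
        rw [div_le_iff₀ hWpos] at h4
        have e : W / M * (1 + E - E * ((Z ω).card / M)) =
            ((1 + E - E * ((Z ω).card / M)) * W) / M := by ring
        rw [e, le_div_iff₀ hM]
        exact h4
      set U : ℝ := (∑ ω, ((Z ω).card : ℝ)) / M with hU
      have hUY : (Y.card : ℝ) = U * M := by
        rw [hYc, hU, div_mul_cancel₀ _ hM.ne']
      have h4 : ∑ ω, S ω ≤ W / M * (Fintype.card Ω * (1 + E) - E * U) := by
        calc ∑ ω, S ω ≤ ∑ ω, W / M * (1 + E - E * ((Z ω).card / M)) :=
              Finset.sum_le_sum (fun ω _ => h3 ω)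
          _ = W / M * ∑ ω, ((1 + E) - E * ((Z ω).card / M)) := by rw [Finset.mul_sum]
          _ = W / M * (Fintype.card Ω * (1 + E) - E * U) := by
              rw [Finset.sum_sub_distrib, Finset.sum_const, ← Finset.mul_sum, ← Finset.sum_div,
                Finset.card_univ, nsmul_eq_mul]
      have hU0 : 0 ≤ U := div_nonneg (Finset.sum_nonneg (fun _ _ => Nat.cast_nonneg _)) hM.le
      rw [hsum, hUY, pow_succ]
      exact arith_end hWpos hM hE0 h4 hU0

/-- two sets with distance at least `d` -/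
theorem far_sets {Ω : Type} [Fintype Ω] [DecidableEq Ω] [Nonempty Ω] {E : ℝ} (hE : 1 ≤ E)
    {m : ℕ} {d : ℝ} (X Y : Finset (Fin m → Ω)) (h : ∀ x ∈ X, ∀ y ∈ Y, d ≤ dif x y) :
    (X.card : ℝ) * Y.card * E ^ d ≤ ((Fintype.card Ω : ℝ) ^ 2 * ((1 + E) ^ 2 / (4 * E))) ^ m := by
  classical
  have hE0 : 0 < E := by linarith
  have h1 := talagrand hE m Y (fun x => if x ∈ X then E ^ d else 0) (by
    intro x
    split_ifs
    · positivity
    · exact le_rfl) (by
    intro x y hy
    split_ifs with hx
    · rw [← Real.rpow_natCast]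
      exact Real.rpow_le_rpow_of_exponent_le hE (h x hx y hy)
    · positivity)
  have h2 : (∑ x, if x ∈ X then E ^ d else 0) = X.card * E ^ d := by
    simp
  rw [h2] at h1
  calc (X.card : ℝ) * Y.card * E ^ d = X.card * E ^ d * Y.card := by ring
    _ ≤ _ := h1

/-- the constant -/
noncomputable def rho (γ : ℝ) : ℝ := (2 + γ) ^ 2 / (4 * (1 + γ)) / (1 + γ) ^ γ

theorem rho_pos {γ : ℝ} (h : 0 < γ) : 0 < rho γ := by
  unfold rho
  positivity

theorem rho_lt_one {γ : ℝ} (h : 0 < γ) : rho γ < 1 := by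
  unfold rho
  have h1 : (0 : ℝ) < 1 + γ := by linarith
  rw [div_lt_one (by positivity)]
  have h2 : γ / (1 + γ) ≤ Real.log (1 + γ) := by
    have := Real.one_sub_inv_le_log_of_pos h1
    have e : 1 - (1 + γ)⁻¹ = γ / (1 + γ) := by
      field_simp
      ring
    rw [← e]
    exact this
  have h3 : 1 + γ ^ 2 / (1 + γ) ≤ (1 + γ) ^ γ := by
    rw [Real.rpow_def_of_pos h1]
    have h4 := Real.add_one_le_exp (γ ^ 2 / (1 + γ))
    have h5 : Real.exp (γ ^ 2 / (1 + γ)) ≤ Real.exp (Real.log (1 + γ) * γ) := by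
      apply Real.exp_le_exp.mpr
      have := mul_le_mul_of_nonneg_right h2 h.le
      calc γ ^ 2 / (1 + γ) = γ / (1 + γ) * γ := by ring
        _ ≤ _ := this
    linarith
  have h4 : (2 + γ) ^ 2 / (4 * (1 + γ)) = 1 + γ ^ 2 / (1 + γ) / 4 := by
    field_simp
    ring
  have h5 : 0 < γ ^ 2 / (1 + γ) := by positivity
  linarith

theorem far_sets' {Ω : Type} [Fintype Ω] [DecidableEq Ω] [Nonempty Ω] {γ : ℝ} (hγ : 0 < γ)
    {m : ℕ} (X Y : Finset (Fin m → Ω)) (h : ∀ x ∈ X, ∀ y ∈ Y, γ * m ≤ dif x y) :
    (X.card : ℝ) * Y.card ≤ ((Fintype.card Ω : ℝ) ^ m) ^ 2 * rho γ ^ m := by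
  have h1 := far_sets (E := 1 + γ) (by linarith) X Y h
  have h2 : (0 : ℝ) < 1 + γ := by linarith
  have h3 : (1 + γ) ^ (γ * (m : ℝ)) = ((1 + γ) ^ γ) ^ m := by
    rw [Real.rpow_mul h2.le, Real.rpow_natCast]
  rw [h3] at h1
  have h4 : (0 : ℝ) < ((1 + γ) ^ γ) ^ m := by positivity
  rw [← le_div_iff₀ h4] at h1
  refine h1.trans (le_of_eq ?_)
  unfold rho
  rw [div_pow ((2 + γ) ^ 2 / (4 * (1 + γ))), mul_pow, ← pow_mul, ← pow_mul, mul_comm 2 m,
    mul_div_assoc]
  congr 3
  ring

end MP8D
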