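import Pool.Agent.Lib.MP_8c24b6_lc.Det.N
import Pool.Agent.Lib.MP_8c24b6_lc.Det.O

/-!
MP_8c24b6_lc, lower bound near factor 2: algorithms that never underestimate.
-/

namespace MP8D

open Finset MP8C

theorem ext_eq {m T : ℕ} {a b : Fin m → Fin T} {i : Fin m} (h : a i = b i) :
    ext a (i : ℕ) = ext b (i : ℕ) := by
  unfold ext
  rw [dif_pos i.2, dif_pos i.2]
  have : (⟨(i : ℕ), i.2⟩ : Fin m) = i := rfl
  rw [this, h]

theorem card_agree {m T : ℕ} (a b : Fin m → Fin T) :
    (Finset.univ.filter (fun i => a i = b i)).card + dif a b = m := by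
  have h1 : dif a b = (Finset.univ.filter (fun i => ¬ a i = b i)).card := by
    unfold dif
    rw [Finset.card_filter]
  rw [h1, Finset.card_filter_add_card_filter_not, Finset.card_univ, Fintype.card_fin]

/-- equal blocks can be matched -/
theorem le_opt_agree (K g m r : ℕ) (hL : 0 < g * ll K) (a b : Fin m → Fin (tt K)) :
    (Finset.univ.filter (fun i => a i = b i)).card * (g * ll K) ≤ opt (str K g m r a b) := by
  classical
  set L := g * ll K with hLdef
  set P : Finset (ℕ × ℕ) := ((Finset.univ.filter (fun i : Fin m => a i = b i)) ×ˢ range L).image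
    (fun q => ((q.1 : ℕ) * L + q.2, (q.1 : ℕ) * L + q.2)) with hP
  have hcard : P.card = (Finset.univ.filter (fun i => a i = b i)).card * L := by
    rw [hP, Finset.card_image_of_injOn, Finset.card_product, Finset.card_range]
    intro x hx y hy hxy
    have hx2 := Finset.mem_range.mp (Finset.mem_product.mp hx).2
    have hy2 := Finset.mem_range.mp (Finset.mem_product.mp hy).2
    simp only [Prod.mk.injEq] at hxy
    have h1 : ((x.1 : ℕ) * L + x.2) / L = ((y.1 : ℕ) * L + y.2) / L := by rw [hxy.1]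
    rw [mul_comm, Nat.mul_add_div hL, mul_comm (y.1 : ℕ), Nat.mul_add_div hL,
      Nat.div_eq_of_lt hx2, Nat.div_eq_of_lt hy2, add_zero, add_zero] at h1
    have h2 : x.2 = y.2 := by
      have := hxy.1
      rw [h1] at this
      omega
    exact Prod.ext (Fin.ext h1) h2
  rw [← hcard]
  apply le_opt_of_cross
  · constructor
    · intro p hp q hq
      obtain ⟨x, hx, rfl⟩ := Finset.mem_image.mp hp
      obtain ⟨y, hy, rfl⟩ := Finset.mem_image.mp hq
      exact Iff.rfl
    · intro p hp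
      obtain ⟨x, hx, rfl⟩ := Finset.mem_image.mp hp
      obtain ⟨hx1, hx2⟩ := Finset.mem_product.mp hx
      have hx3 := (Finset.mem_filter.mp hx1).2
      have hx4 := Finset.mem_range.mp hx2
      show word K L _ (ext a) ((x.1 : ℕ) * L + x.2) = word K L _ (ext b) ((x.1 : ℕ) * L + x.2)
      unfold word
      have h1 : ((x.1 : ℕ) * L + x.2) / L = (x.1 : ℕ) := by
        rw [mul_comm, Nat.mul_add_div hL, Nat.div_eq_of_lt hx4, add_zero]
      rw [h1, ext_eq hx3]
  · intro p hp
    obtain ⟨x, hx, rfl⟩ := Finset.mem_image.mp hp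
    have hx4 := Finset.mem_range.mp (Finset.mem_product.mp hx).2
    have h1 : ((x.1 : ℕ) + 1) * L ≤ m * L := Nat.mul_le_mul_right _ x.1.2
    have h2 : ((x.1 : ℕ) + 1) * L = (x.1 : ℕ) * L + L := by ring
    show (x.1 : ℕ) * L + x.2 < m * L ∧ (x.1 : ℕ) * L + x.2 < m * L
    omega

/-- strings of pairs without long common subsequence -/
theorem opt_far {K g m r : ℕ} (hK0 : 0 < K) (hg : 0 < g) (hm : 2 * K ≤ m)
    (hr : r ≤ 2 * (g * ll K)) (a b : Fin m → Fin (tt K)) (hno : ¬ HasCommon a b (m / K + 1)) :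
    (opt (str K g m r a b) : ℝ) ≤ (m : ℝ) * ((g : ℝ) * (ll K : ℝ)) * (1 / 2 + 5 / K) := by
  obtain ⟨Q, hQ1, hQ2, hQ3⟩ := opt_str_le (r := r) hK0 hg a b
  have hcom : HasCommon a b Q.card := ⟨Q, hQ1, hQ2, rfl⟩
  have hQ : Q.card ≤ m / K := by
    by_contra hcon
    exact hno (hcom.mono (by omega))
  have hKr : (1 : ℝ) ≤ K := by exact_mod_cast hK0
  have hmr : (2 : ℝ) * K ≤ m := by exact_mod_cast hm
  have hD : 0 < dd K := dd_pos hK0
  have hLn : 0 < g * ll K := by
    have : 0 < ll K := by unfold ll; positivity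
    positivity
  have hrr : (r : ℝ) ≤ 2 * ((g : ℝ) * (ll K : ℝ)) := by exact_mod_cast hr
  have hL0 : 0 < (g : ℝ) * (ll K : ℝ) := by
    have : (0 : ℝ) < ((g * ll K : ℕ) : ℝ) := by exact_mod_cast hLn
    rw [Nat.cast_mul] at this
    exact this
  generalize (g : ℝ) * (ll K : ℝ) = L at *
  have hQr : (Q.card : ℝ) ≤ m / K := by
    have h3 : (Q.card : ℝ) ≤ ((m / K : ℕ) : ℝ) := by exact_mod_cast hQ
    exact h3.trans Nat.cast_div_le
  have h3 : 2 * L * (Q.card : ℝ) ≤ 2 * (m * L) / K := by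
    have : 2 * L * (Q.card : ℝ) ≤ 2 * L * (m / K) := mul_le_mul_of_nonneg_left hQr (by positivity)
    calc _ ≤ _ := this
      _ = 2 * (m * L) / K := by ring
  have h4 : 2 * L ≤ (m * L) / K := by
    rw [le_div_iff₀ (by linarith)]
    nlinarith
  have e : (m : ℝ) * L * (1 / 2 + 5 / K) =
      m * L / 2 + 2 * (m * L) / K + 2 * (m * L) / K + (m * L) / K := by
    field_simp
    ring
  rw [e]
  linarith

theorem alpha_arith {α K : ℝ} (h1 : 1 ≤ α) (h2 : α < 2) (hK : 20 / (2 - α) ≤ K) :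
    α * (1 / 2 + 5 / K) ≤ 1 - (2 - α) ^ 2 / 4 := by
  have h3 : 0 < 2 - α := by linarith
  have hK0 : 0 < K := lt_of_lt_of_le (by positivity) hK
  have h4 : 5 / K ≤ (2 - α) / 4 := by
    rw [div_le_iff₀ hK0]
    rw [div_le_iff₀ h3] at hK
    linarith
  nlinarith

theorem run_eq_of_transcript' {s : ℕ} (alg : PassAlg s) {p : ℕ} {u v u' v' : List Base}
    (hlen : u.length = u'.length) (h : transcript alg p u v = transcript alg p u' v') :
    alg.run p (u' ++ v') = alg.run p (u ++ v) := by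
  unfold PassAlg.run
  rw [(state_eq_of_transcript alg hlen h p le_rfl).2]

/-- few pairs have a long common subsequence -/
theorem near_pairs {K m : ℕ} (hK0 : 2 ≤ K) (hm : 2 * K ≤ m)
    (F : Finset ((Fin m → Fin (tt K)) × (Fin m → Fin (tt K))))
    (hF : ∀ q ∈ F, HasCommon q.1 q.2 (m / K + 1)) :
    (F.card : ℝ) * 4 ^ m ≤ ((tt K : ℝ) ^ m) ^ 2 := by
  classical
  have hk : m / K + 1 ≤ m := by
    have h3 : m / K ≤ m / 2 := Nat.div_le_div_left hK0 (by norm_num)
    omega
  have hT : tt K ^ m = tt K ^ (m - (m / K + 1)) * tt K ^ (m / K + 1) := by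
    rw [← pow_add]
    congr 1
    omega
  have hTk : 4 ^ m * 4 ^ m ≤ tt K ^ (m / K + 1) := by
    unfold tt
    have e : (4 : ℕ) ^ m * 4 ^ m = 2 ^ (4 * m) := by
      rw [← mul_pow, pow_mul]
      norm_num
    rw [e, ← pow_mul]
    apply Nat.pow_le_pow_right (by norm_num)
    have h3 : m < K * (m / K + 1) := by
      have := Nat.lt_mul_div_succ m (by omega : 0 < K)
      simpa using this
    calc 4 * m ≤ 4 * (K * (m / K + 1)) := Nat.mul_le_mul_left _ h3.le
      _ = 4 * K * (m / K + 1) := by ring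
  have h1 : F.card ≤ (Finset.univ : Finset (Fin m → Fin (tt K))).card *
      (4 ^ m * tt K ^ (m - (m / K + 1))) := by
    rw [mul_comm]
    apply Finset.card_le_mul_card_image_of_maps_to (f := Prod.fst) (fun a _ => Finset.mem_univ _)
    intro a _
    have h2 : (F.filter (fun q => q.1 = a)).card =
        ((F.filter (fun q => q.1 = a)).image Prod.snd).card := by
      rw [Finset.card_image_of_injOn]
      intro x hx y hy hxy
      have h3 := (Finset.mem_filter.mp hx).2
      have h4 := (Finset.mem_filter.mp hy).2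
      exact Prod.ext (h3.trans h4.symm) hxy
    rw [h2]
    apply count_common a
    intro b hb
    obtain ⟨q, hq, rfl⟩ := Finset.mem_image.mp hb
    obtain ⟨hq1, hq2⟩ := Finset.mem_filter.mp hq
    have := hF q hq1
    rw [hq2] at this
    exact this
  rw [Finset.card_univ, Fintype.card_fun, Fintype.card_fin, Fintype.card_fin] at h1
  have h2 : F.card * 4 ^ m ≤ (tt K ^ m) ^ 2 := by
    calc F.card * 4 ^ m ≤ (tt K ^ m * (4 ^ m * tt K ^ (m - (m / K + 1)))) * 4 ^ m :=
          Nat.mul_le_mul_right _ h1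
      _ = tt K ^ m * (tt K ^ (m - (m / K + 1)) * (4 ^ m * 4 ^ m)) := by ring
      _ ≤ tt K ^ m * (tt K ^ (m - (m / K + 1)) * tt K ^ (m / K + 1)) :=
          Nat.mul_le_mul_left _ (Nat.mul_le_mul_left _ hTk)
      _ = (tt K ^ m) ^ 2 := by rw [← hT]; ring
  exact_mod_cast h2

/-- the count for algorithms that never underestimate -/
theorem under_count {α : ℝ} (h1 : 1 ≤ α) (h2 : α < 2) {K g m r : ℕ} (hK : 20 / (2 - α) ≤ K)
    (hK0 : 2 ≤ K) (hg : 0 < g) (hm : 2 * K ≤ m) (hr : r ≤ 2 * (g * ll K)) {p s : ℕ}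
    (alg : PassAlg s) (G : Finset ((Fin m → Fin (tt K)) × (Fin m → Fin (tt K))))
    (hG : ∀ q ∈ G, alg.run p (str K g m r q.1 q.2) ≤ opt (str K g m r q.1 q.2))
    (hunder : ∀ a b, (opt (str K g m r a b) : ℝ) ≤ α * alg.run p (str K g m r a b)) {θ : ℝ}
    (hcard : θ * ((tt K : ℝ) ^ m) ^ 2 ≤ G.card) :
    θ ≤ 1 / 4 ^ m + 4 ^ (s * p) * rho ((2 - α) ^ 2 / 4) ^ m := by
  classical
  have hγ : 0 < (2 - α) ^ 2 / 4 := by
    have : 0 < 2 - α := by linarith
    positivity
  have hT : 0 < tt K := by unfold tt; positivity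
  have : Nonempty (Fin (tt K)) := ⟨⟨0, hT⟩⟩
  have hTr : (0 : ℝ) < tt K := by exact_mod_cast hT
  have hD : 0 < dd K := dd_pos (by omega)
  have hLn : 0 < g * ll K := by
    have : 0 < ll K := by unfold ll; positivity
    positivity
  have hmr : (2 : ℝ) * K ≤ m := by exact_mod_cast hm
  have hKr : (2 : ℝ) ≤ K := by exact_mod_cast hK0
  have hm0 : (0 : ℝ) < m := by linarith
  have hL0 : (0 : ℝ) < (g : ℝ) * (ll K : ℝ) := by
    have : (0 : ℝ) < ((g * ll K : ℕ) : ℝ) := by exact_mod_cast hLn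
    rw [Nat.cast_mul] at this
    exact this
  set U : (Fin m → Fin (tt K)) → List Base := fun a =>
    left (word K (g * ll K) (fun t => g * dd K ^ t) (ext a)) (m * (g * ll K)) with hU
  set V : (Fin m → Fin (tt K)) → List Base := fun b =>
    right (word K (g * ll K) (fun t => g * dd K ^ t) (ext b)) (m * (g * ll K)) r with hV
  have hUlen : ∀ a b, (U a).length = (U b).length := by
    intro a b
    simp only [hU, left_length]
  -- the far pairs of `G`
  set F := G.filter (fun q => ¬ HasCommon q.1 q.2 (m / K + 1)) with hF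
  have hsplit : (G.card : ℝ) = (G.filter (fun q => HasCommon q.1 q.2 (m / K + 1))).card + F.card := by
    rw [hF]
    exact_mod_cast (Finset.card_filter_add_card_filter_not
      (s := G) (fun q => HasCommon q.1 q.2 (m / K + 1))).symm
  have hnear := near_pairs hK0 hm (G.filter (fun q => HasCommon q.1 q.2 (m / K + 1)))
    (fun q hq => (Finset.mem_filter.mp hq).2)
  have h4m : (0 : ℝ) < 4 ^ m := by positivity
  have hnear' : ((G.filter (fun q => HasCommon q.1 q.2 (m / K + 1))).card : ℝ) ≤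
      ((tt K : ℝ) ^ m) ^ 2 * (1 / 4 ^ m) := by
    rw [mul_one_div, le_div_iff₀ h4m]
    exact hnear
  -- the far pairs with a given transcript
  have hfib : ∀ τ : Fin p → Fin (2 ^ s) × Fin (2 ^ s),
      ((F.filter (fun q => transcript alg p (U q.1) (V q.2) = τ)).card : ℝ) ≤
        ((tt K : ℝ) ^ m) ^ 2 * rho ((2 - α) ^ 2 / 4) ^ m := by
    intro τ
    by_cases hne : (F.filter (fun q => transcript alg p (U q.1) (V q.2) = τ)).Nonempty
    · obtain ⟨q₀, hq₀⟩ := hne
      obtain ⟨hq1, hq2⟩ := Finset.mem_filter.mp hq₀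
      obtain ⟨hq3, hq4⟩ := Finset.mem_filter.mp hq1
      have hrun0 : alg.run p (U q₀.1 ++ V q₀.2) ≤
          (m : ℝ) * ((g : ℝ) * (ll K : ℝ)) * (1 / 2 + 5 / K) :=
        (hG q₀ hq3).trans (opt_far (by omega) hg hm hr q₀.1 q₀.2 hq4)
      set R := F.filter (fun q => transcript alg p (U q.1) (V q.2) = τ) with hR
      have hsub : R ⊆ (R.image Prod.fst) ×ˢ (R.image Prod.snd) := by
        intro q hq
        exact Finset.mem_product.mpr ⟨Finset.mem_image_of_mem _ hq, Finset.mem_image_of_mem _ hq⟩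
      have hRc : (R.card : ℝ) ≤ ((R.image Prod.fst).card : ℝ) * ((R.image Prod.snd).card : ℝ) := by
        have := Finset.card_le_card hsub
        rw [Finset.card_product] at this
        exact_mod_cast this
      have hfar := far_sets' (γ := (2 - α) ^ 2 / 4) hγ (R.image Prod.fst) (R.image Prod.snd) (by
        intro a ha b hb
        obtain ⟨q, hq, rfl⟩ := Finset.mem_image.mp ha
        obtain ⟨q', hq', rfl⟩ := Finset.mem_image.mp hb
        have t1 := (Finset.mem_filter.mp hq).2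
        have t2 := (Finset.mem_filter.mp hq').2
        have r1 : alg.run p (U q.1 ++ V q'.2) = alg.run p (U q.1 ++ V q.2) :=
          run_eq_of_transcript alg (hUlen _ _) (t1.trans t2.symm)
        have r2 : alg.run p (U q.1 ++ V q.2) = alg.run p (U q₀.1 ++ V q₀.2) :=
          run_eq_of_transcript' alg (hUlen _ _) (hq2.trans t1.symm)
        have r3 := hunder q.1 q'.2
        have r4 : alg.run p (str K g m r q.1 q'.2) = alg.run p (U q₀.1 ++ V q₀.2) := r1.trans r2
        rw [r4] at r3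
        have r5 : (((Finset.univ.filter (fun i => q.1 i = q'.2 i)).card * (g * ll K) : ℕ) : ℝ) ≤
            opt (str K g m r q.1 q'.2) := by
          exact_mod_cast le_opt_agree K g m r hLn q.1 q'.2
        have r6 : α * alg.run p (U q₀.1 ++ V q₀.2) ≤
            α * ((m : ℝ) * ((g : ℝ) * (ll K : ℝ)) * (1 / 2 + 5 / K)) :=
          mul_le_mul_of_nonneg_left hrun0 (by linarith)
        have r7 := alpha_arith h1 h2 hK
        have r8 : α * ((m : ℝ) * ((g : ℝ) * (ll K : ℝ)) * (1 / 2 + 5 / K)) ≤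
            (m : ℝ) * ((g : ℝ) * (ll K : ℝ)) * (1 - (2 - α) ^ 2 / 4) := by
          calc _ = (m : ℝ) * ((g : ℝ) * (ll K : ℝ)) * (α * (1 / 2 + 5 / K)) := by ring
            _ ≤ _ := mul_le_mul_of_nonneg_left r7 (mul_pos hm0 hL0).le
        have r9 : ((Finset.univ.filter (fun i => q.1 i = q'.2 i)).card : ℝ) *
            ((g : ℝ) * (ll K : ℝ)) ≤ ((m : ℝ) * (1 - (2 - α) ^ 2 / 4)) * ((g : ℝ) * (ll K : ℝ)) := by
          push_cast at r5
          linarith
        have r10 := le_of_mul_le_mul_right r9 hL0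
        have r11 : ((Finset.univ.filter (fun i => q.1 i = q'.2 i)).card : ℝ) +
            (dif q.1 q'.2 : ℝ) = m := by
          exact_mod_cast card_agree q.1 q'.2
        linarith)
      rw [Fintype.card_fin] at hfar
      exact hRc.trans hfar
    · rw [Finset.not_nonempty_iff_eq_empty] at hne
      rw [hne]
      have := (rho_pos hγ).le
      simp only [Finset.card_empty, Nat.cast_zero]
      positivity
  have hFc : (F.card : ℝ) ≤ 4 ^ (s * p) * (((tt K : ℝ) ^ m) ^ 2 * rho ((2 - α) ^ 2 / 4) ^ m) := by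
    have h3 : (F.card : ℝ) = ∑ τ : Fin p → Fin (2 ^ s) × Fin (2 ^ s),
        ((F.filter (fun q => transcript alg p (U q.1) (V q.2) = τ)).card : ℝ) := by
      exact_mod_cast Finset.card_eq_sum_card_fiberwise
        (f := fun q : (Fin m → Fin (tt K)) × (Fin m → Fin (tt K)) =>
          transcript alg p (U q.1) (V q.2)) (fun q _ => Finset.mem_univ _)
    rw [h3]
    have h5 : ((Finset.univ : Finset (Fin p → Fin (2 ^ s) × Fin (2 ^ s))).card : ℝ) =
        4 ^ (s * p) := by
      rw [Finset.card_univ, Fintype.card_fun, Fintype.card_prod, Fintype.card_fin,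
        Fintype.card_fin, ← pow_add, ← pow_mul]
      push_cast
      have : (4 : ℝ) = 2 ^ 2 := by norm_num
      rw [this, ← pow_mul]
      congr 1
      ring
    calc _ ≤ ∑ _τ : Fin p → Fin (2 ^ s) × Fin (2 ^ s),
          (((tt K : ℝ) ^ m) ^ 2 * rho ((2 - α) ^ 2 / 4) ^ m) :=
          Finset.sum_le_sum (fun τ _ => hfib τ)
      _ = _ := by rw [Finset.sum_const, nsmul_eq_mul, h5]
  have hW : (0 : ℝ) < ((tt K : ℝ) ^ m) ^ 2 := by positivity
  have hfinal : ((tt K : ℝ) ^ m) ^ 2 * θ ≤ ((tt K : ℝ) ^ m) ^ 2 *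
      (1 / 4 ^ m + 4 ^ (s * p) * rho ((2 - α) ^ 2 / 4) ^ m) := by
    calc ((tt K : ℝ) ^ m) ^ 2 * θ = θ * ((tt K : ℝ) ^ m) ^ 2 := by ring
      _ ≤ (G.card : ℝ) := hcard
      _ ≤ ((tt K : ℝ) ^ m) ^ 2 * (1 / 4 ^ m) +
          4 ^ (s * p) * (((tt K : ℝ) ^ m) ^ 2 * rho ((2 - α) ^ 2 / 4) ^ m) := by
          rw [hsplit]
          linarith
      _ = _ := by ring
  exact le_of_mul_le_mul_left hfinal hW

end MP8D
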